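import Mathlib
import Pool.Agent.H63.Quad.BPlan
import Pool.Agent.H48.Quad.B1

/-!
# Project QUAD, part B3: concentration of the genus
-/

set_option autoImplicit false

namespace Pool.Agent.H82.Quad

open Filter Topology Real MeasureTheory Pool.Agent.H63.Quad

/-- The properties of the limit function used here. -/
structure AProps (aa : ℝ → ℝ) : Prop where
  pos : ∀ τ, 0 < aa τ
  cont : Continuous aa
  anti : AntitoneOn aa (Set.Ici 0)
  large : ∀ τ, 0 < τ → 2 * τ * aa τ ≤ 1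
  lim : Tendsto (fun u => u * aa u) atTop (𝓝 (1 / 2))

/-- `-log aN` along real arguments. -/
noncomputable def phi (N : ℕ) (s : ℝ) : ℝ := -log (aN N ⌊s * N⌋₊)

lemma phi_measurable (N : ℕ) : Measurable (phi N) := by
  unfold phi
  have h1 : Measurable (fun s : ℝ => ⌊s * N⌋₊) := Nat.measurable_floor.comp (measurable_id.mul_const _)
  have h2 : Measurable (fun k : ℕ => -log (aN N k)) := measurable_of_countable _
  exact h2.comp h1

lemma log_yN (N n : ℕ) : log (yN N n) = ∑ m ∈ Finset.range n, -log (aN N m) := by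
  induction n with
  | zero => simp [yN_zero]
  | succ n ih =>
    rw [Finset.sum_range_succ, ← ih]
    have h := yN_succ N n
    rw [h, log_mul (aN_pos N n).ne' (yN_pos N (n + 1)).ne']
    ring

lemma integral_cell (N : ℕ) (hN : 1 ≤ N) (m : ℕ) :
    ∫ s in ((m : ℝ) / N)..(((m + 1 : ℕ) : ℝ) / N), phi N s = -log (aN N m) / N := by
  have hN' : (0 : ℝ) < N := by exact_mod_cast hN
  have hle : (m : ℝ) / N ≤ ((m + 1 : ℕ) : ℝ) / N := by
    apply div_le_div_of_nonneg_right _ hN'.le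
    push_cast; linarith
  have h1 : ∫ s in ((m : ℝ) / N)..(((m + 1 : ℕ) : ℝ) / N), phi N s
      = ∫ s in ((m : ℝ) / N)..(((m + 1 : ℕ) : ℝ) / N), (-log (aN N m)) := by
    apply intervalIntegral.integral_congr_ae
    have h0 : ∀ᵐ s : ℝ, s ≠ ((m + 1 : ℕ) : ℝ) / N := by
      exact Measure.ae_ne volume _
    filter_upwards [h0] with s hs hmem
    rw [Set.uIoc_of_le hle] at hmem
    unfold phi
    have h2 : ⌊s * N⌋₊ = m := by
      rw [Nat.floor_eq_iff]
      · constructor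
        · have := hmem.1.le
          rwa [div_le_iff₀ hN'] at this
        · have := lt_of_le_of_ne hmem.2 hs
          rw [lt_div_iff₀ hN'] at this
          push_cast at this
          exact this
      · have h3 : 0 ≤ (m : ℝ) / N := by positivity
        have := hmem.1
        have hs0 : 0 ≤ s := by linarith
        positivity
    rw [h2]
  rw [h1, intervalIntegral.integral_const, smul_eq_mul]
  push_cast
  field_simp
  ring

lemma phi_mono (N : ℕ) (hN : 1 ≤ N) : Monotone (phi N) := by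
  intro s t hst
  unfold phi
  have h1 : ⌊s * N⌋₊ ≤ ⌊t * N⌋₊ := Nat.floor_mono (mul_le_mul_of_nonneg_right hst (Nat.cast_nonneg N))
  have h2 := aN_antitone N hN h1
  have h3 := log_le_log (aN_pos N _) h2
  linarith

lemma phi_ii (N : ℕ) (hN : 1 ≤ N) (a b : ℝ) : IntervalIntegrable (phi N) volume a b :=
  (phi_mono N hN).intervalIntegrable

lemma phi_nonneg (N : ℕ) (hN : 1 ≤ N) (s : ℝ) : 0 ≤ phi N s := by
  unfold phi
  have h2 := aN_antitone N hN (Nat.zero_le ⌊s * N⌋₊)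
  rw [aN_zero] at h2
  have h3 := log_nonpos (aN_pos N ⌊s * N⌋₊).le (by linarith)
  linarith

lemma integral_phi (N : ℕ) (hN : 1 ≤ N) (n : ℕ) :
    ∫ s in (0 : ℝ)..((n : ℝ) / N), phi N s = log (yN N n) / N := by
  have h := intervalIntegral.sum_integral_adjacent_intervals (f := phi N) (μ := volume)
    (a := fun m : ℕ => (m : ℝ) / N) (n := n) (fun m _ => phi_ii N hN _ _)
  simp only [Nat.cast_zero, zero_div] at h
  rw [← h, log_yN, Finset.sum_div]
  apply Finset.sum_congr rfl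
  intro m _
  exact integral_cell N hN m

/-- The limit of `phi`. -/
noncomputable def ff (aa : ℝ → ℝ) (s : ℝ) : ℝ := -log (aa s)

/-- The limit of `log yN / N`. -/
noncomputable def LL (aa : ℝ → ℝ) (τ : ℝ) : ℝ := ∫ s in (0 : ℝ)..τ, ff aa s

variable {aa : ℝ → ℝ}

lemma ff_cont (hR : AProps aa) : Continuous (ff aa) := by
  unfold ff
  exact (hR.cont.log (fun s => (hR.pos s).ne')).neg

/-- the limit of `log yN / N`. -/
theorem logLim (hR : AProps aa) (hL : LimA aa) (hLB : LB) (τ : ℝ) (hτ : 0 < τ)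
    (n N : ℕ → ℕ) (hN : Tendsto N atTop atTop)
    (h : Tendsto (fun i => (n i : ℝ) / N i) atTop (𝓝 τ)) :
    Tendsto (fun i => log (yN (N i) (n i)) / N i) atTop (𝓝 (LL aa τ)) := by
  obtain ⟨c, hc, hcN⟩ := hLB (τ + 1) (by linarith)
  have hcN' := hN.eventually hcN
  have hN1 : ∀ᶠ i in atTop, 1 ≤ N i := hN.eventually_ge_atTop 1
  set C := -log c with hC
  -- bound
  have hbound : ∀ᶠ i in atTop, ∀ s : ℝ, s ≤ τ + 1 → |phi (N i) s| ≤ C := by
    filter_upwards [hcN', hN1] with i hi hi1 s hs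
    rw [abs_of_nonneg (phi_nonneg _ hi1 s)]
    unfold phi
    have h1 : ((⌊s * N i⌋₊ : ℕ) : ℝ) ≤ (τ + 1) * N i := by
      have h2 : ⌊s * N i⌋₊ ≤ ⌊(τ + 1) * N i⌋₊ :=
        Nat.floor_mono (mul_le_mul_of_nonneg_right hs (Nat.cast_nonneg _))
      have h3 : ((⌊(τ + 1) * N i⌋₊ : ℕ) : ℝ) ≤ (τ + 1) * N i := Nat.floor_le (by positivity)
      have h4 : ((⌊s * N i⌋₊ : ℕ) : ℝ) ≤ ((⌊(τ + 1) * N i⌋₊ : ℕ) : ℝ) := by exact_mod_cast h2
      linarith
    have h5 := log_le_log hc (hi _ h1)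
    rw [hC]
    linarith
  -- main part
  have hmain : Tendsto (fun i => ∫ s in (0 : ℝ)..τ, phi (N i) s) atTop (𝓝 (LL aa τ)) := by
    unfold LL
    apply intervalIntegral.tendsto_integral_filter_of_dominated_convergence (fun _ => C)
    · exact Eventually.of_forall (fun i => (phi_measurable _).aestronglyMeasurable)
    · filter_upwards [hbound] with i hi
      apply Eventually.of_forall
      intro s hs
      rw [Set.uIoc_of_le hτ.le] at hs
      rw [Real.norm_eq_abs]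
      exact hi s (by linarith [hs.2])
    · exact intervalIntegrable_const
    · apply Eventually.of_forall
      intro s hs
      rw [Set.uIoc_of_le hτ.le] at hs
      unfold phi ff
      have h1 : Tendsto (fun i => ((⌊s * N i⌋₊ : ℕ) : ℝ) / N i) atTop (𝓝 s) :=
        (tendsto_nat_floor_mul_div_atTop hs.1.le).comp
          (tendsto_natCast_atTop_atTop.comp hN)
      have h2 := hL s hs.1 (fun i => ⌊s * N i⌋₊) N hN h1
      exact (h2.log (hR.pos s).ne').neg
  have hsmall : Tendsto (fun i => ∫ s in τ..((n i : ℝ) / N i), phi (N i) s) atTop (𝓝 0) := by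
    have h1 : Tendsto (fun i => C * |(n i : ℝ) / N i - τ|) atTop (𝓝 0) := by
      have h2 : Tendsto (fun i => |(n i : ℝ) / N i - τ|) atTop (𝓝 0) := by
        have h3 := (h.sub_const τ).abs
        simpa using h3
      simpa using h2.const_mul C
    apply squeeze_zero_norm' _ h1
    have h4 : ∀ᶠ i in atTop, (n i : ℝ) / N i < τ + 1 := h.eventually_lt_const (by linarith)
    filter_upwards [hbound, h4] with i hi hi4
    apply intervalIntegral.norm_integral_le_of_norm_le_const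
    intro s hs
    rw [Real.norm_eq_abs]
    apply hi s
    rw [Set.mem_uIoc] at hs
    rcases hs with hs | hs
    · linarith [hs.2]
    · linarith [hs.2]
  have hsum : ∀ᶠ i in atTop, (∫ s in (0 : ℝ)..τ, phi (N i) s)
      + (∫ s in τ..((n i : ℝ) / N i), phi (N i) s) = log (yN (N i) (n i)) / N i := by
    filter_upwards [hN1] with i hi
    rw [intervalIntegral.integral_add_adjacent_intervals (phi_ii _ hi _ _) (phi_ii _ hi _ _),
      integral_phi _ hi]
  have := (hmain.add hsmall).congr' hsum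
  simpa using this

/-! ### The function `2 θ(τ)` -/

/-- `2 θ(τ)`. -/
noncomputable def tt (aa : ℝ → ℝ) (τ : ℝ) : ℝ := ff aa τ - LL aa τ / τ

lemma ff_mono (hR : AProps aa) {s t : ℝ} (hs : 0 ≤ s) (hst : s ≤ t) : ff aa s ≤ ff aa t := by
  unfold ff
  have h1 := hR.anti (Set.mem_Ici.mpr hs) (Set.mem_Ici.mpr (le_trans hs hst)) hst
  have h2 := log_le_log (hR.pos t) h1
  linarith

lemma LL_cont (hR : AProps aa) : Continuous (LL aa) := by
  unfold LL
  exact intervalIntegral.continuous_primitive (fun a b => (ff_cont hR).intervalIntegrable a b) 0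

lemma LL_sub (hR : AProps aa) (s t : ℝ) : LL aa t - LL aa s = ∫ x in s..t, ff aa x := by
  unfold LL
  rw [intervalIntegral.integral_interval_sub_left ((ff_cont hR).intervalIntegrable _ _)
    ((ff_cont hR).intervalIntegrable _ _)]

lemma LL_le (hR : AProps aa) {s t : ℝ} (hs : 0 ≤ s) (hst : s ≤ t) :
    LL aa t - LL aa s ≤ (t - s) * ff aa t := by
  rw [LL_sub hR]
  have h := intervalIntegral.integral_mono_on (μ := volume) hst
    ((ff_cont hR).intervalIntegrable s t)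
    (intervalIntegrable_const (c := ff aa t)) (fun x hx => ff_mono hR (le_trans hs hx.1) hx.2)
  rwa [intervalIntegral.integral_const, smul_eq_mul] at h

lemma le_LL (hR : AProps aa) {s t : ℝ} (hs : 0 ≤ s) (hst : s ≤ t) :
    (t - s) * ff aa s ≤ LL aa t - LL aa s := by
  rw [LL_sub hR]
  have h := intervalIntegral.integral_mono_on (μ := volume) hst
    (intervalIntegrable_const (c := ff aa s)) ((ff_cont hR).intervalIntegrable s t) (fun x hx => ff_mono hR hs hx.1)
  rwa [intervalIntegral.integral_const, smul_eq_mul] at h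

lemma LL_zero : LL aa 0 = 0 := by
  unfold LL; simp

lemma tt_cont (hR : AProps aa) : ContinuousOn (tt aa) (Set.Ioi 0) := by
  unfold tt
  apply (ff_cont hR).continuousOn.sub
  apply (LL_cont hR).continuousOn.div continuousOn_id
  intro x hx
  exact (Set.mem_Ioi.mp hx).ne'

/-- small values. -/
lemma tt_small (hR : AProps aa) (ε : ℝ) (hε : 0 < ε) : ∃ τ, 0 < τ ∧ tt aa τ < ε := by
  have h1 : Tendsto (ff aa) (𝓝[>] 0) (𝓝 (ff aa 0)) :=
    (ff_cont hR).continuousAt.mono_left nhdsWithin_le_nhds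
  have h2 : ∀ᶠ τ in 𝓝[>] (0 : ℝ), ff aa τ < ff aa 0 + ε := h1.eventually_lt_const (by linarith)
  have h3 : ∀ᶠ τ in 𝓝[>] (0 : ℝ), 0 < τ := eventually_mem_nhdsWithin
  obtain ⟨τ, h4, h5⟩ := (h2.and h3).exists
  refine ⟨τ, h5, ?_⟩
  unfold tt
  have h6 := le_LL hR le_rfl h5.le
  rw [LL_zero] at h6
  have h7 : ff aa 0 ≤ LL aa τ / τ := by
    rw [le_div_iff₀ h5]
    linarith
  linarith

lemma ff_upper (hR : AProps aa) (ε : ℝ) (hε : 0 < ε) :
    ∃ s0, 0 < s0 ∧ ∀ s, s0 ≤ s → ff aa s ≤ log (2 * s) + ε / 2 := by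
  have h1 : exp (-(ε / 2)) / 2 < 1 / 2 := by
    have : exp (-(ε / 2)) < 1 := by
      rw [← exp_zero]
      exact exp_lt_exp.mpr (by linarith)
    linarith
  obtain ⟨s1, hs1⟩ := eventually_atTop.mp (hR.lim.eventually_const_lt h1)
  refine ⟨max s1 1, lt_of_lt_of_le one_pos (le_max_right _ _), ?_⟩
  intro s hs
  have h2 := hs1 s (le_trans (le_max_left _ _) hs)
  have hs0 : 0 < s := lt_of_lt_of_le one_pos (le_trans (le_max_right _ _) hs)
  have ha := hR.pos s
  have h6 : exp (-(ε / 2)) ≤ 2 * s * aa s := by linarith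
  have h7 : log (exp (-(ε / 2))) ≤ log (2 * s * aa s) := log_le_log (exp_pos _) h6
  rw [log_exp, log_mul (by positivity) ha.ne'] at h7
  unfold ff
  linarith

lemma ff_lower (hR : AProps aa) (s : ℝ) (hs : 0 < s) : log (2 * s) ≤ ff aa s := by
  have ha := hR.pos s
  have hla := hR.large s hs
  have h1 : log (2 * s * aa s) ≤ 0 := log_nonpos (by positivity) hla
  rw [log_mul (by positivity) ha.ne'] at h1
  unfold ff
  linarith

/-- large values. -/
lemma tt_large (hR : AProps aa) (ε : ℝ) (hε : 0 < ε) : ∃ τ, 0 < τ ∧ 1 - ε < tt aa τ := by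
  obtain ⟨s0, hs0pos, hs0⟩ := ff_upper hR ε hε
  set K := LL aa s0 - s0 * log 2 - s0 * log s0 + s0 with hK
  set τ := s0 + 2 * |K| / ε + 1 with hτ
  have hτ0 : s0 ≤ τ := by
    rw [hτ]
    have : 0 ≤ 2 * |K| / ε := by positivity
    linarith
  have hτpos : 0 < τ := by linarith
  refine ⟨τ, hτpos, ?_⟩
  have h1 : LL aa τ - LL aa s0 ≤ ∫ x in s0..τ, ((log 2 + ε / 2) + log x) := by
    rw [LL_sub hR]
    apply intervalIntegral.integral_mono_on (μ := volume) hτ0
      ((ff_cont hR).intervalIntegrable _ _)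
    · apply intervalIntegrable_const.add
      exact intervalIntegral.intervalIntegrable_log'
    · intro x hx
      have hx0 : 0 < x := lt_of_lt_of_le hs0pos hx.1
      have := hs0 x hx.1
      rw [log_mul (by norm_num) hx0.ne'] at this
      linarith
  rw [intervalIntegral.integral_add intervalIntegrable_const
    intervalIntegral.intervalIntegrable_log', intervalIntegral.integral_const, integral_log,
    smul_eq_mul] at h1
  have h2 := ff_lower hR τ hτpos
  rw [log_mul (by norm_num) hτpos.ne'] at h2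
  unfold tt
  have h3 : LL aa τ / τ ≤ log 2 + log τ - 1 + ε / 2 + K / τ := by
    rw [div_le_iff₀ hτpos]
    have : (log 2 + log τ - 1 + ε / 2 + K / τ) * τ = (log 2 + log τ - 1 + ε / 2) * τ + K := by
      field_simp
    rw [this, hK]
    have h5 : 0 ≤ ε / 2 * s0 := by positivity
    nlinarith
  have h4 : K / τ < ε / 2 := by
    rw [div_lt_iff₀ hτpos]
    have h6 : K ≤ |K| := le_abs_self K
    have h7 : ε / 2 * τ = ε / 2 * s0 + |K| + ε / 2 := by
      rw [hτ]; field_simp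
    rw [h7]
    have h8 : 0 < ε / 2 * s0 := by positivity
    linarith
  linarith

/-- every `θ` in `(0, 1/2)` is reached. -/
lemma exists_tau (hR : AProps aa) (θ : ℝ) (h0 : 0 < θ) (h1 : θ < 1 / 2) :
    ∃ τ, 0 < τ ∧ tt aa τ = 2 * θ := by
  obtain ⟨τ1, hτ1, ht1⟩ := tt_small hR (2 * θ) (by linarith)
  obtain ⟨τ2, hτ2, ht2⟩ := tt_large hR (1 - 2 * θ) (by linarith)
  have hcont := tt_cont hR
  have hconn : IsPreconnected (Set.Ioi (0 : ℝ)) := isPreconnected_Ioi
  have := hconn.intermediate_value₂ (s := Set.Ioi 0) (Set.mem_Ioi.mpr hτ1) (Set.mem_Ioi.mpr hτ2)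
    hcont continuousOn_const (g := fun _ => 2 * θ) ht1.le (by linarith)
  obtain ⟨τ, hτ, h⟩ := this
  exact ⟨τ, hτ, h⟩

/-- one coefficient is controlled by the value at another point. -/
lemma wN_le (N N' n g : ℕ) (hN : 1 ≤ N) (hN' : 1 ≤ N') :
    wN N n g ≤ ((N' : ℝ) / N) ^ (2 * g) * (yN N' n / yN N n) := by
  have h1 : (0 : ℝ) < N := by exact_mod_cast hN
  have h2 : (0 : ℝ) < N' := by exact_mod_cast hN'
  have h3 : (Qp n).coeff g * (1 / (N' : ℝ) ^ 2) ^ g ≤ yN N' n := by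
    unfold yN
    rw [Polynomial.eval_eq_sum_range]
    by_cases hg : g ≤ (Qp n).natDegree
    · apply Finset.single_le_sum (f := fun i => (Qp n).coeff i * (1 / (N' : ℝ) ^ 2) ^ i)
      · intro i _
        exact mul_nonneg (Qp_coeff_nonneg n i) (by positivity)
      · exact Finset.mem_range.mpr (by omega)
    · rw [Polynomial.coeff_eq_zero_of_natDegree_lt (by omega), zero_mul]
      apply Finset.sum_nonneg
      intro i _
      exact mul_nonneg (Qp_coeff_nonneg n i) (by positivity)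
  unfold wN
  rw [← mul_div_assoc]
  apply div_le_div_of_nonneg_right _ (yN_pos N n).le
  have h4 : (1 / (N : ℝ) ^ 2) ^ g = ((N' : ℝ) / N) ^ (2 * g) * (1 / (N' : ℝ) ^ 2) ^ g := by
    rw [pow_mul, ← mul_pow]
    congr 1
    field_simp
  rw [h4]
  calc (Qp n).coeff g * (((N' : ℝ) / N) ^ (2 * g) * (1 / (N' : ℝ) ^ 2) ^ g)
      = ((N' : ℝ) / N) ^ (2 * g) * ((Qp n).coeff g * (1 / (N' : ℝ) ^ 2) ^ g) := by ring
    _ ≤ ((N' : ℝ) / N) ^ (2 * g) * yN N' n := mul_le_mul_of_nonneg_left h3 (by positivity)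

lemma log_wN_le (N N' n g : ℕ) (hN : 1 ≤ N) (hN' : 1 ≤ N') (b : ℝ)
    (h : 2 * g * log ((N' : ℝ) / N) + (log (yN N' n) - log (yN N n)) ≤ b) :
    wN N n g ≤ exp b := by
  have h1 : (0 : ℝ) < N := by exact_mod_cast hN
  have h2 : (0 : ℝ) < N' := by exact_mod_cast hN'
  refine le_trans (wN_le N N' n g hN hN') ?_
  have h3 : ((N' : ℝ) / N) ^ (2 * g) * (yN N' n / yN N n)
      = exp (2 * g * log ((N' : ℝ) / N) + (log (yN N' n) - log (yN N n))) := by
    rw [exp_add, exp_sub, exp_log (yN_pos _ _), exp_log (yN_pos _ _)]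
    congr 1
    rw [← exp_log (by positivity : (0 : ℝ) < (N' : ℝ) / N), ← exp_nat_mul, log_exp]
    push_cast
    rfl
  rw [h3]
  exact exp_le_exp.mpr h

lemma tt_nonneg (hR : AProps aa) (τ : ℝ) (hτ : 0 < τ) : 0 ≤ tt aa τ := by
  unfold tt
  have h6 := LL_le hR le_rfl hτ.le
  rw [LL_zero] at h6
  have h7 : LL aa τ / τ ≤ ff aa τ := by
    rw [div_le_iff₀ hτ]
    linarith
  linarith

/-- the gain, upper side. -/
lemma gain_upper (hR : AProps aa) (τ : ℝ) (hτ : 0 < τ) (ε : ℝ) (hε : 0 < ε) :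
    ∃ κ, 0 < κ ∧ κ < 1 ∧
      (tt aa τ + 2 * ε) * log κ + (κ * LL aa (τ / κ) - LL aa τ) / τ < 0 := by
  have h1 : ContinuousAt (fun κ : ℝ => ff aa (τ / κ)) 1 := by
    apply ContinuousAt.comp (g := ff aa) (f := fun κ : ℝ => τ / κ)
    · exact (ff_cont hR).continuousAt
    · exact continuousAt_const.div continuousAt_id one_ne_zero
  have h2 : Tendsto (fun κ : ℝ => ff aa (τ / κ)) (𝓝[<] 1) (𝓝 (ff aa τ)) := by
    have := h1.tendsto.mono_left (nhdsWithin_le_nhds (s := Set.Iio 1))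
    simpa using this
  have h3 : ∀ᶠ κ in 𝓝[<] (1 : ℝ), ff aa (τ / κ) < ff aa τ + ε := h2.eventually_lt_const (by linarith)
  have h4 : ∀ᶠ κ in 𝓝[<] (1 : ℝ), κ < 1 := eventually_mem_nhdsWithin
  have h5 : ∀ᶠ κ in 𝓝[<] (1 : ℝ), 0 < κ :=
    (eventually_gt_nhds (zero_lt_one)).filter_mono nhdsWithin_le_nhds
  obtain ⟨κ, ⟨h6, h7⟩, h8⟩ := ((h3.and h4).and h5).exists
  refine ⟨κ, h8, h7, ?_⟩
  have h9 := LL_le hR hτ.le (le_div_self hτ.le h8 h7.le)
  have h10 : (κ * LL aa (τ / κ) - LL aa τ) / τ ≤ (1 - κ) * (tt aa τ + (ff aa (τ / κ) - ff aa τ)) := by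
    rw [div_le_iff₀ hτ]
    unfold tt
    have e1 : (1 - κ) * (ff aa τ - LL aa τ / τ + (ff aa (τ / κ) - ff aa τ)) * τ
        = (1 - κ) * (τ * ff aa (τ / κ) - LL aa τ) := by
      field_simp
      ring
    rw [e1]
    have h11 := mul_le_mul_of_nonneg_left h9 h8.le
    have e2 : κ * ((τ / κ - τ) * ff aa (τ / κ)) = (1 - κ) * τ * ff aa (τ / κ) := by
      field_simp
    rw [e2] at h11
    linarith
  have h11 : log κ ≤ κ - 1 := by
    have := log_le_sub_one_of_pos h8
    exact this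
  have h12 : (tt aa τ + 2 * ε) * log κ ≤ (tt aa τ + 2 * ε) * (κ - 1) := by
    apply mul_le_mul_of_nonneg_left h11
    have := tt_nonneg hR τ hτ
    linarith
  have h13 : (1 - κ) * (tt aa τ + (ff aa (τ / κ) - ff aa τ)) < (1 - κ) * (tt aa τ + ε) := by
    apply mul_lt_mul_of_pos_left _ (by linarith)
    linarith
  have h14 : 0 < (1 - κ) * ε := mul_pos (by linarith) hε
  nlinarith

/-- the gain, lower side. -/
lemma gain_lower (hR : AProps aa) (τ : ℝ) (hτ : 0 < τ) (ε : ℝ) (hε : 0 < ε)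
    (hθ : 0 ≤ tt aa τ - 2 * ε) :
    ∃ κ, 1 < κ ∧
      (tt aa τ - 2 * ε) * log κ + (κ * LL aa (τ / κ) - LL aa τ) / τ < 0 := by
  have h1 : ContinuousAt (fun κ : ℝ => ff aa (τ / κ)) 1 := by
    apply ContinuousAt.comp (g := ff aa) (f := fun κ : ℝ => τ / κ)
    · exact (ff_cont hR).continuousAt
    · exact continuousAt_const.div continuousAt_id one_ne_zero
  have h2 : Tendsto (fun κ : ℝ => ff aa (τ / κ)) (𝓝[>] 1) (𝓝 (ff aa τ)) := by
    have := h1.tendsto.mono_left (nhdsWithin_le_nhds (s := Set.Ioi 1))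
    simpa using this
  have h3 : ∀ᶠ κ in 𝓝[>] (1 : ℝ), ff aa τ - ε < ff aa (τ / κ) := h2.eventually_const_lt (by linarith)
  have h4 : ∀ᶠ κ in 𝓝[>] (1 : ℝ), 1 < κ := eventually_mem_nhdsWithin
  obtain ⟨κ, h6, h7⟩ := (h3.and h4).exists
  have h8 : 0 < κ := by linarith
  refine ⟨κ, h7, ?_⟩
  have h9 := le_LL hR (s := τ / κ) (t := τ) (by positivity) (div_le_self hτ.le h7.le)
  have h10 : (κ * LL aa (τ / κ) - LL aa τ) / τ ≤ (κ - 1) * (-tt aa τ + (ff aa τ - ff aa (τ / κ))) := by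
    rw [div_le_iff₀ hτ]
    unfold tt
    have e1 : (κ - 1) * (-(ff aa τ - LL aa τ / τ) + (ff aa τ - ff aa (τ / κ))) * τ
        = (κ - 1) * (LL aa τ - τ * ff aa (τ / κ)) := by
      field_simp
      ring
    rw [e1]
    have h11 := mul_le_mul_of_nonneg_left h9 h8.le
    have e2 : κ * ((τ - τ / κ) * ff aa (τ / κ)) = (κ - 1) * τ * ff aa (τ / κ) := by
      field_simp
    rw [e2] at h11
    linarith
  have h11 : log κ ≤ κ - 1 := log_le_sub_one_of_pos h8
  have h12 : (tt aa τ - 2 * ε) * log κ ≤ (tt aa τ - 2 * ε) * (κ - 1) :=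
    mul_le_mul_of_nonneg_left h11 hθ
  have h13 : (κ - 1) * (-tt aa τ + (ff aa τ - ff aa (τ / κ))) < (κ - 1) * (-tt aa τ + ε) := by
    apply mul_lt_mul_of_pos_left _ (by linarith)
    linarith
  have h14 : 0 < (κ - 1) * ε := mul_pos (by linarith) hε
  nlinarith

lemma tendsto_N (τ : ℝ) (hτ : 0 < τ) (N : ℕ → ℕ)
    (h : Tendsto (fun n : ℕ => (n : ℝ) / (N n : ℝ)) atTop (𝓝 τ)) : Tendsto N atTop atTop := by
  have h1 : Tendsto (fun n : ℕ => (N n : ℝ)) atTop atTop := by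
    have h2 : ∀ᶠ n : ℕ in atTop, (n : ℝ) / (2 * τ) ≤ N n := by
      have h3 : ∀ᶠ n : ℕ in atTop, (n : ℝ) / (N n : ℝ) < 2 * τ := h.eventually_lt_const (by linarith)
      have h4 : ∀ᶠ n : ℕ in atTop, 0 < (n : ℝ) / (N n : ℝ) := h.eventually_const_lt hτ
      filter_upwards [h3, h4] with n hn hn4
      have hN : (0 : ℝ) < N n := by
        rcases Nat.eq_zero_or_pos (N n) with h0 | h0
        · rw [h0] at hn4; simp at hn4
        · exact_mod_cast h0
      rw [div_lt_iff₀ hN] at hn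
      rw [div_le_iff₀ (by positivity)]
      linarith
    apply tendsto_atTop_mono' _ h2
    exact tendsto_natCast_atTop_atTop.atTop_div_const (by positivity)
  exact tendsto_natCast_atTop_iff.mp h1

/-- one side of the concentration: comparison with `N' n` where `N' / N → κ`. -/
lemma side (hR : AProps aa) (hL : LimA aa) (hLB : LB) (τ : ℝ) (hτ : 0 < τ) (N N' : ℕ → ℕ)
    (h : Tendsto (fun n : ℕ => (n : ℝ) / (N n : ℝ)) atTop (𝓝 τ)) (κ : ℝ) (hκ : 0 < κ)
    (hN' : Tendsto (fun n : ℕ => (N' n : ℝ) / (N n : ℝ)) atTop (𝓝 κ)) (x : ℝ)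
    (hx : x * log κ + (κ * LL aa (τ / κ) - LL aa τ) / τ < 0) :
    ∃ c, 0 < c ∧ ∀ᶠ n : ℕ in atTop, 1 ≤ N n ∧ 1 ≤ N' n ∧
      x * n * log ((N' n : ℝ) / N n) + (log (yN (N' n) n) - log (yN (N n) n)) ≤ -c * n := by
  have hNinf := tendsto_N τ hτ N h
  have h2 : Tendsto (fun n : ℕ => (n : ℝ) / (N' n : ℝ)) atTop (𝓝 (τ / κ)) := by
    have h3 := h.div hN' hκ.ne'
    apply h3.congr'
    filter_upwards [hNinf.eventually_gt_atTop 0] with n hn
    have : (N n : ℝ) ≠ 0 := by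
      have : 0 < N n := hn
      positivity
    simp only [Pi.div_apply]
    field_simp
  have hτκ : 0 < τ / κ := by positivity
  have hN'inf := tendsto_N (τ / κ) hτκ N' h2
  have hl1 := logLim hR hL hLB τ hτ (fun n => n) N hNinf h
  have hl2 := logLim hR hL hLB (τ / κ) hτκ (fun n => n) N' hN'inf h2
  -- limit of the whole expression divided by n
  have hlog : Tendsto (fun n : ℕ => log ((N' n : ℝ) / N n)) atTop (𝓝 (log κ)) := hN'.log hκ.ne'
  have ht1 : Tendsto (fun n : ℕ => (log (yN (N n) n) / N n) / ((n : ℝ) / N n)) atTop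
      (𝓝 (LL aa τ / τ)) := hl1.div h hτ.ne'
  have ht2 : Tendsto (fun n : ℕ => (log (yN (N' n) n) / N' n) / ((n : ℝ) / N' n)) atTop
      (𝓝 (LL aa (τ / κ) / (τ / κ))) := hl2.div h2 hτκ.ne'
  have htot := ((hlog.const_mul x).add (ht2.sub ht1))
  set c := -(x * log κ + (κ * LL aa (τ / κ) - LL aa τ) / τ) / 2 with hc
  have hc0 : 0 < c := by rw [hc]; linarith
  have hlim : x * log κ + (LL aa (τ / κ) / (τ / κ) - LL aa τ / τ) < -c := by
    have e : LL aa (τ / κ) / (τ / κ) - LL aa τ / τ = (κ * LL aa (τ / κ) - LL aa τ) / τ := by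
      field_simp
    rw [e, hc]
    linarith
  refine ⟨c, hc0, ?_⟩
  filter_upwards [htot.eventually_lt_const hlim, hNinf.eventually_ge_atTop 1,
    hN'inf.eventually_ge_atTop 1, eventually_gt_atTop 0] with n hn hN1 hN'1 hn0
  refine ⟨hN1, hN'1, ?_⟩
  have hn0' : (0 : ℝ) < n := by exact_mod_cast hn0
  have hNp : (0 : ℝ) < N n := by exact_mod_cast hN1
  have hN'p : (0 : ℝ) < N' n := by exact_mod_cast hN'1
  have e1 : (log (yN (N n) n) / N n) / ((n : ℝ) / N n) = log (yN (N n) n) / n := by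
    field_simp
  have e2 : (log (yN (N' n) n) / N' n) / ((n : ℝ) / N' n) = log (yN (N' n) n) / n := by
    field_simp
  rw [e1, e2] at hn
  have h5 := mul_lt_mul_of_pos_right hn hn0'
  have e3 : (x * log ((N' n : ℝ) / N n) + (log (yN (N' n) n) / n - log (yN (N n) n) / n)) * n
      = x * n * log ((N' n : ℝ) / N n) + (log (yN (N' n) n) - log (yN (N n) n)) := by
    field_simp
  rw [e3] at h5
  exact h5.le

/-- Part B3. -/
theorem partB3 (hR : AProps aa) (hL : LimA aa) (hLB : LB) (θ : ℝ) (h0 : 0 < θ)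
    (h1 : θ < 1 / 2) : ∃ τ, 0 < τ ∧ ModeConc θ τ := by
  obtain ⟨τ, hτ, hθ⟩ := exists_tau hR θ h0 h1
  refine ⟨τ, hτ, ?_⟩
  intro N hN ε hε
  have hNinf := tendsto_N τ hτ N hN
  have hNinf' : Tendsto (fun n => (N n : ℝ)) atTop atTop := tendsto_natCast_atTop_atTop.comp hNinf
  -- upper side
  have hup : ∃ c, 0 < c ∧ ∀ᶠ n : ℕ in atTop, ∀ g : ℕ, (θ + ε) * n ≤ g →
      wN (N n) n g ≤ exp (-c * n) := by
    obtain ⟨κ, hκ0, hκ1, hκ⟩ := gain_upper hR τ hτ ε hε
    have hN' : Tendsto (fun n : ℕ => ((⌈κ * N n⌉₊ : ℕ) : ℝ) / (N n : ℝ)) atTop (𝓝 κ) :=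
      (tendsto_nat_ceil_mul_div_atTop hκ0.le).comp hNinf'
    obtain ⟨c, hc, hcn⟩ := side hR hL hLB τ hτ N (fun n => ⌈κ * N n⌉₊) hN κ hκ0 hN'
      (tt aa τ + 2 * ε) hκ
    refine ⟨c, hc, ?_⟩
    filter_upwards [hcn, hN'.eventually_lt_const hκ1, hN'.eventually_const_lt hκ0]
      with n hn hlt hgt g hg
    obtain ⟨hn1, hn2, hn3⟩ := hn
    apply log_wN_le (N n) ⌈κ * N n⌉₊ n g hn1 hn2
    refine le_trans ?_ hn3
    have hlogneg : log (((⌈κ * N n⌉₊ : ℕ) : ℝ) / (N n : ℝ)) ≤ 0 :=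
      log_nonpos hgt.le hlt.le
    have : 2 * (g : ℝ) * log (((⌈κ * N n⌉₊ : ℕ) : ℝ) / (N n : ℝ))
        ≤ (tt aa τ + 2 * ε) * n * log (((⌈κ * N n⌉₊ : ℕ) : ℝ) / (N n : ℝ)) := by
      apply mul_le_mul_of_nonpos_right _ hlogneg
      rw [hθ]
      linarith
    linarith
  -- lower side
  have hlow : ∃ c, 0 < c ∧ ∀ᶠ n : ℕ in atTop, ∀ g : ℕ, (g : ℝ) ≤ (θ - ε) * n →
      wN (N n) n g ≤ exp (-c * n) := by
    by_cases hcase : 0 ≤ tt aa τ - 2 * ε
    · obtain ⟨κ, hκ1, hκ⟩ := gain_lower hR τ hτ ε hε hcase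
      have hκ0 : 0 < κ := by linarith
      have hN' : Tendsto (fun n : ℕ => ((⌈κ * N n⌉₊ : ℕ) : ℝ) / (N n : ℝ)) atTop (𝓝 κ) :=
        (tendsto_nat_ceil_mul_div_atTop hκ0.le).comp hNinf'
      obtain ⟨c, hc, hcn⟩ := side hR hL hLB τ hτ N (fun n => ⌈κ * N n⌉₊) hN κ hκ0 hN'
        (tt aa τ - 2 * ε) hκ
      refine ⟨c, hc, ?_⟩
      filter_upwards [hcn, hN'.eventually_const_lt hκ1] with n hn hgt g hg
      obtain ⟨hn1, hn2, hn3⟩ := hn
      apply log_wN_le (N n) ⌈κ * N n⌉₊ n g hn1 hn2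
      refine le_trans ?_ hn3
      have hlogpos : 0 ≤ log (((⌈κ * N n⌉₊ : ℕ) : ℝ) / (N n : ℝ)) :=
        log_nonneg hgt.le
      have : 2 * (g : ℝ) * log (((⌈κ * N n⌉₊ : ℕ) : ℝ) / (N n : ℝ))
          ≤ (tt aa τ - 2 * ε) * n * log (((⌈κ * N n⌉₊ : ℕ) : ℝ) / (N n : ℝ)) := by
        apply mul_le_mul_of_nonneg_right _ hlogpos
        rw [hθ]
        linarith
      linarith
    · refine ⟨1, one_pos, ?_⟩
      filter_upwards [eventually_gt_atTop 0] with n hn g hg
      exfalso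
      push Not at hcase
      rw [hθ] at hcase
      have hn' : (0 : ℝ) < n := by exact_mod_cast hn
      have h3 : (θ - ε) * n < 0 := mul_neg_of_neg_of_pos (by linarith) hn'
      have h4 : (0 : ℝ) ≤ g := Nat.cast_nonneg g
      linarith
  obtain ⟨c1, hc1, hu⟩ := hup
  obtain ⟨c2, hc2, hl⟩ := hlow
  refine ⟨min c1 c2, lt_min hc1 hc2, ?_⟩
  filter_upwards [hu, hl] with n hun hln g hg
  have hn0 : (0 : ℝ) ≤ n := Nat.cast_nonneg n
  rcases le_abs.mp hg with h | h
  · refine le_trans (hun g (by linarith)) (exp_le_exp.mpr ?_)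
    have := mul_le_mul_of_nonneg_right (min_le_left c1 c2) hn0
    linarith
  · refine le_trans (hln g (by linarith)) (exp_le_exp.mpr ?_)
    have := mul_le_mul_of_nonneg_right (min_le_right c1 c2) hn0
    linarith

/-- The properties hold for helper48's limit function. -/
theorem aProps_AA0 : AProps Pool.Agent.H48.Quad.AA0 where
  pos := Pool.Agent.H48.Quad.AA0_pos
  cont := Pool.Agent.H48.Quad.continuous_AA0
  anti := fun u hu v _ huv => Pool.Agent.H48.Quad.AA0_anti hu huv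
  large := fun τ hτ => by
    have := Pool.Agent.H48.Quad.mul_AA0_le hτ.le
    linarith
  lim := Pool.Agent.H48.Quad.tendsto_mul_AA0

theorem partB3_AA0 (hL : LimA Pool.Agent.H48.Quad.AA0) (hLB : LB) (θ : ℝ) (h0 : 0 < θ)
    (h1 : θ < 1 / 2) : ∃ τ, 0 < τ ∧ ModeConc θ τ :=
  partB3 aProps_AA0 hL hLB θ h0 h1

end Pool.Agent.H82.Quad
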