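import Mathlib
import Pool.Agent.H63.Quad.Defs

/-!
# Project QUAD, module Ac, the loop equation of the Laguerre functional
-/

set_option autoImplicit false

namespace Pool.Agent.H82.Quad

open Finset Pool.Agent.H63.Quad

variable {N : ℕ}

lemma Lam_monomial (a : Fin N →₀ ℕ) (c : ℚ) :
    Lam N (MvPolynomial.monomial a c) = c * ((∏ i, (a i).factorial : ℕ) : ℚ) := by
  have h : MvPolynomial.monomial a c = c • MvPolynomial.basisMonomials (Fin N) ℚ a := by
    rw [MvPolynomial.coe_basisMonomials, MvPolynomial.smul_monomial]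
    simp
  rw [h, map_smul]
  unfold Lam
  rw [Module.Basis.constr_basis]
  rfl

/-- integration by parts. -/
lemma Lam_X_mul (i : Fin N) (G : MvPolynomial (Fin N) ℚ) :
    Lam N (MvPolynomial.X i * G) = Lam N (MvPolynomial.pderiv i (MvPolynomial.X i * G)) := by
  induction G using MvPolynomial.induction_on' with
  | monomial a c =>
    have h1 : (MvPolynomial.X i * MvPolynomial.monomial a c : MvPolynomial (Fin N) ℚ)
        = MvPolynomial.monomial (Finsupp.single i 1 + a) c := by
      rw [MvPolynomial.X, MvPolynomial.monomial_mul, one_mul]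
    rw [h1, MvPolynomial.pderiv_monomial, Lam_monomial, Lam_monomial]
    have h2 : Finsupp.single i 1 + a - Finsupp.single i 1 = a := by
      ext j; simp
    rw [h2, ← Finset.mul_prod_erase univ _ (mem_univ i), ← Finset.mul_prod_erase univ _ (mem_univ i)]
    have h3 : ∀ j ∈ univ.erase i, ((Finsupp.single i 1 + a : Fin N →₀ ℕ) j).factorial
        = (a j).factorial := by
      intro j hj
      have : i ≠ j := (Finset.mem_erase.mp hj).1.symm
      simp [Finsupp.single_apply, this]
    rw [Finset.prod_congr rfl h3]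
    have h4 : (Finsupp.single i 1 + a : Fin N →₀ ℕ) i = a i + 1 := by
      simp [add_comm]
    rw [h4, Nat.factorial_succ]
    push_cast
    ring
  | add p q hp hq => rw [mul_add, map_add, map_add, map_add, hp, hq]

/-- The derivation `∑ X_i^(k+1) ∂_i`. -/
noncomputable def Dk (N k : ℕ) : Derivation ℚ (MvPolynomial (Fin N) ℚ) (MvPolynomial (Fin N) ℚ) :=
  ∑ i : Fin N, (MvPolynomial.X i ^ (k + 1) : MvPolynomial (Fin N) ℚ) • MvPolynomial.pderiv i

lemma Dk_apply (k : ℕ) (F : MvPolynomial (Fin N) ℚ) :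
    Dk N k F = ∑ i : Fin N, MvPolynomial.X i ^ (k + 1) * MvPolynomial.pderiv i F := by
  have h : Dk N k F = Derivation.coeFnAddMonoidHom (Dk N k) F := rfl
  rw [h]
  unfold Dk
  rw [map_sum, Finset.sum_apply]
  rfl

lemma Dk_X (k : ℕ) (i : Fin N) :
    Dk N k (MvPolynomial.X i) = MvPolynomial.X i * MvPolynomial.X i ^ k := by
  rw [Dk_apply, Finset.sum_eq_single i]
  · rw [MvPolynomial.pderiv_X_self]
    ring
  · intro j _ hj
    rw [MvPolynomial.pderiv_X_of_ne hj.symm, mul_zero]
  · simp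

lemma Dk_prod {ι : Type*} (k : ℕ) (s : Finset ι) (F h : ι → MvPolynomial (Fin N) ℚ)
    (hF : ∀ i ∈ s, Dk N k (F i) = F i * h i) :
    Dk N k (∏ i ∈ s, F i) = (∏ i ∈ s, F i) * ∑ i ∈ s, h i := by
  classical
  induction s using Finset.induction_on with
  | empty => simp
  | insert a s ha ih =>
    rw [Finset.prod_insert ha, Finset.sum_insert ha, Derivation.leibniz,
      ih (fun i hi => hF i (Finset.mem_insert_of_mem hi)), hF a (Finset.mem_insert_self a s)]
    simp only [smul_eq_mul]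
    ring

/-- complete symmetric polynomial in two variables. -/
noncomputable def hk (N k : ℕ) (i j : Fin N) : MvPolynomial (Fin N) ℚ :=
  ∑ p ∈ antidiagonal k, MvPolynomial.X i ^ p.1 * MvPolynomial.X j ^ p.2

lemma hk_symm (k : ℕ) (i j : Fin N) : hk N k i j = hk N k j i := by
  unfold hk
  rw [← Finset.Nat.sum_antidiagonal_swap]
  apply Finset.sum_congr rfl
  intro p _
  simp [mul_comm]

lemma hk_self (k : ℕ) (i : Fin N) : hk N k i i = ((k + 1 : ℕ) : MvPolynomial (Fin N) ℚ) * MvPolynomial.X i ^ k := by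
  unfold hk
  have : ∀ p ∈ antidiagonal k, (MvPolynomial.X i ^ p.1 * MvPolynomial.X i ^ p.2
      : MvPolynomial (Fin N) ℚ) = MvPolynomial.X i ^ k := by
    intro p hp
    have hp' := mem_antidiagonal.mp hp
    rw [← pow_add, hp']
  rw [Finset.sum_congr rfl this, Finset.sum_const, Nat.card_antidiagonal, nsmul_eq_mul]

lemma sub_mul_hk (k : ℕ) (i j : Fin N) :
    MvPolynomial.X j * MvPolynomial.X j ^ k - MvPolynomial.X i * MvPolynomial.X i ^ k
      = (MvPolynomial.X j - MvPolynomial.X i) * hk N k i j := by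
  induction k with
  | zero => simp [hk]
  | succ k ih =>
    have h1 : hk N (k + 1) i j = MvPolynomial.X j ^ (k + 1) + MvPolynomial.X i * hk N k i j := by
      unfold hk
      rw [Finset.Nat.sum_antidiagonal_succ, Finset.mul_sum]
      simp only [pow_zero, one_mul]
      congr 1
      apply Finset.sum_congr rfl
      intro p _
      ring
    rw [h1, mul_add, ← mul_assoc, mul_comm _ (MvPolynomial.X i), mul_assoc, ← ih]
    ring

lemma Dk_vdm (k : ℕ) : Dk N k (vdm N) = vdm N * ∑ i : Fin N, ∑ j ∈ Ioi i, hk N k i j := by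
  unfold vdm
  apply Dk_prod
  intro i _
  apply Dk_prod
  intro j _
  rw [map_sub, Dk_X, Dk_X, sub_mul_hk]

lemma sum_hk (k : ℕ) :
    2 * ∑ i : Fin N, ∑ j ∈ Ioi i, hk N k i j
      = ∑ p ∈ antidiagonal k, ps N p.1 * ps N p.2
        - ((k + 1 : ℕ) : MvPolynomial (Fin N) ℚ) * ps N k := by
  have h1 : ∑ p ∈ antidiagonal k, ps N p.1 * ps N p.2 = ∑ i : Fin N, ∑ j : Fin N, hk N k i j := by
    unfold ps hk
    simp_rw [Finset.sum_mul_sum]
    rw [Finset.sum_comm]
    apply Finset.sum_congr rfl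
    intro i _
    rw [Finset.sum_comm]
  have h2 : ((k + 1 : ℕ) : MvPolynomial (Fin N) ℚ) * ps N k = ∑ i : Fin N, hk N k i i := by
    unfold ps
    rw [Finset.mul_sum]
    apply Finset.sum_congr rfl
    intro i _
    rw [hk_self]
  have h3 : ∀ i : Fin N, ∑ j : Fin N, hk N k i j
      = ∑ j ∈ Ioi i, hk N k i j + ∑ j ∈ Iio i, hk N k i j + hk N k i i := by
    intro i
    rw [← Finset.add_sum_erase univ _ (mem_univ i)]
    have h4 : univ.erase i = Ioi i ∪ Iio i := by
      ext j
      simp only [Finset.mem_erase, mem_univ, and_true, mem_union, mem_Ioi, mem_Iio]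
      constructor
      · intro h
        rcases lt_or_gt_of_ne h with h | h
        · exact Or.inr h
        · exact Or.inl h
      · rintro (h | h)
        · exact h.ne'
        · exact h.ne
    rw [h4, Finset.sum_union]
    · ring
    · rw [Finset.disjoint_left]
      intro j hj hj'
      rw [mem_Ioi] at hj
      rw [mem_Iio] at hj'
      exact absurd hj' hj.le.not_gt
  have h5 : ∑ i : Fin N, ∑ j ∈ Iio i, hk N k i j = ∑ i : Fin N, ∑ j ∈ Ioi i, hk N k i j := by
    rw [Finset.sum_comm' (t' := univ) (s' := fun j => Ioi j)]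
    · apply Finset.sum_congr rfl
      intro i _
      apply Finset.sum_congr rfl
      intro j _
      exact hk_symm k j i
    · intro i j
      simp
  rw [h1, h2]
  simp_rw [h3]
  rw [Finset.sum_add_distrib, Finset.sum_add_distrib, h5]
  ring

/-- The loop equation. -/
theorem loop (k : ℕ) (ψ : MvPolynomial (Fin N) ℚ) :
    Ev N (ps N (k + 1) * ψ) = ∑ p ∈ antidiagonal k, Ev N (ps N p.1 * ps N p.2 * ψ)
      + Ev N (Dk N k ψ) := by
  have hadd : ∀ F G, Ev N (F + G) = Ev N F + Ev N G := by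
    intro F G; unfold Ev; rw [mul_add, map_add]
  have h1 : Ev N (ps N (k + 1) * ψ) = Lam N (∑ i : Fin N,
      MvPolynomial.X i * (MvPolynomial.X i ^ k * (vdm N ^ 2 * ψ))) := by
    unfold Ev ps
    congr 1
    rw [Finset.sum_mul, Finset.mul_sum]
    apply Finset.sum_congr rfl
    intro i _
    ring
  have h2 : ∀ i : Fin N, MvPolynomial.pderiv i (MvPolynomial.X i * (MvPolynomial.X i ^ k
      * (vdm N ^ 2 * ψ))) = ((k + 1 : ℕ) : MvPolynomial (Fin N) ℚ) * MvPolynomial.X i ^ k
        * (vdm N ^ 2 * ψ) + MvPolynomial.X i ^ (k + 1)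
        * MvPolynomial.pderiv i (vdm N ^ 2 * ψ) := by
    intro i
    rw [← mul_assoc, ← pow_succ', Derivation.leibniz, Derivation.leibniz_pow,
      MvPolynomial.pderiv_X_self]
    simp only [smul_eq_mul, nsmul_eq_mul, Nat.add_sub_cancel, mul_one]
    ring
  rw [h1, map_sum]
  simp_rw [Lam_X_mul, h2]
  rw [← map_sum, Finset.sum_add_distrib, ← Dk_apply, ← Finset.sum_mul, ← Finset.mul_sum]
  have h3 : Dk N k (vdm N ^ 2 * ψ) = vdm N ^ 2 * (Dk N k ψ + (∑ p ∈ antidiagonal k,
      ps N p.1 * ps N p.2 - ((k + 1 : ℕ) : MvPolynomial (Fin N) ℚ) * ps N k) * ψ) := by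
    rw [← sum_hk, Derivation.leibniz, Derivation.leibniz_pow, Dk_vdm]
    simp only [smul_eq_mul, nsmul_eq_mul]
    push_cast
    ring
  rw [h3]
  have h4 : ((k + 1 : ℕ) : MvPolynomial (Fin N) ℚ) * (∑ i : Fin N, MvPolynomial.X i ^ k)
        * (vdm N ^ 2 * ψ) + vdm N ^ 2 * (Dk N k ψ + (∑ p ∈ antidiagonal k,
      ps N p.1 * ps N p.2 - ((k + 1 : ℕ) : MvPolynomial (Fin N) ℚ) * ps N k) * ψ)
      = ∑ p ∈ antidiagonal k, vdm N ^ 2 * (ps N p.1 * ps N p.2 * ψ) + vdm N ^ 2 * Dk N k ψ := by
    rw [← Finset.mul_sum, ← Finset.sum_mul]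
    unfold ps
    ring
  rw [h4, map_add, map_sum]
  rfl

end Pool.Agent.H82.Quad
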