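import Mathlib
import Pool.Agent.H63.Quad.Defs

/-!
# Project QUAD, module Ac, combinatorial side: recursion for `VV`
-/

set_option autoImplicit false

namespace Pool.Agent.H82.Quad

open Finset Equiv Pool.Agent.H63.Quad

variable {X Y : Type} [Fintype X] [Fintype Y]

lemma fixN_congr (N : ℕ) (e : X ≃ Y) (π : Perm X) : fixN N (e.permCongr π) = fixN N π := by
  unfold fixN
  apply Nat.card_congr
  refine ⟨fun f => ⟨fun x => f.1 (e x), fun x => ?_⟩, fun f => ⟨fun y => f.1 (e.symm y), fun y => ?_⟩,
    fun f => ?_, fun f => ?_⟩
  · have := f.2 (e x)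
    simpa [Equiv.permCongr_apply] using this
  · have := f.2 (e.symm y)
    simpa [Equiv.permCongr_apply] using this
  · ext y; simp
  · ext x; simp

lemma fixN_conj (N : ℕ) (σ π : Perm X) : fixN N (σ * π * σ⁻¹) = fixN N π := by
  rw [← Equiv.permCongr_eq_mul]
  exact fixN_congr N σ π

lemma fixN_mul_comm (N : ℕ) (a b : Perm X) : fixN N (a * b) = fixN N (b * a) := by
  have := fixN_conj N a (b * a)
  rw [← this]
  congr 1
  group

lemma VV_congr (N : ℕ) [DecidableEq X] [DecidableEq Y] (e : X ≃ Y) (β : Perm X) :
    VV N (e.permCongr β) = VV N β := by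
  unfold VV
  symm
  apply Fintype.sum_equiv e.permCongr
  intro π
  rw [← Equiv.permCongr_mul, fixN_congr, fixN_congr]

/-- fixed point added. -/
lemma fixN_opt (N : ℕ) (g : Perm X) : fixN N (optionCongr g) = N * fixN N g := by
  unfold fixN
  have : N * Nat.card {f : X → Fin N // ∀ x, f (g x) = f x}
      = Nat.card (Fin N × {f : X → Fin N // ∀ x, f (g x) = f x}) := by
    rw [Nat.card_prod, Nat.card_fin]
  rw [this]
  apply Nat.card_congr
  refine ⟨fun f => (f.1 none, ⟨fun x => f.1 (some x), fun x => ?_⟩),
    fun p => ⟨fun o => o.elim p.1 p.2.1, fun o => ?_⟩, fun f => ?_, fun p => ?_⟩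
  · simpa using f.2 (some x)
  · cases o with
    | none => rfl
    | some x => exact p.2.2 x
  · ext o; cases o <;> rfl
  · rfl

lemma fixN_swap_opt (N : ℕ) [DecidableEq X] (g : Perm X) (x : X) :
    fixN N (swap none (some x) * optionCongr g) = fixN N g := by
  unfold fixN
  apply Nat.card_congr
  have h1 : ∀ z, g z = x → (swap none (some x) * optionCongr g) (some z) = none := by
    intro z hz
    simp [hz]
  have h2 : ∀ z, g z ≠ x → (swap none (some x) * optionCongr g) (some z) = some (g z) := by
    intro z hz
    rw [Equiv.Perm.mul_apply, optionCongr_apply, Option.map_some]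
    apply swap_apply_of_ne_of_ne
    · simp
    · simpa using hz
  have h3 : (swap none (some x) * optionCongr g) none = some x := by simp
  refine ⟨fun f => ⟨fun z => f.1 (some z), fun z => ?_⟩,
    fun p => ⟨fun o => o.elim (p.1 x) p.1, fun o => ?_⟩, fun f => ?_, fun p => ?_⟩
  · have hn := f.2 none
    rw [h3] at hn
    have hz := f.2 (some z)
    by_cases h : g z = x
    · rw [h1 z h] at hz
      show f.1 (some (g z)) = f.1 (some z)
      rw [h, hn, hz]
    · rw [h2 z h] at hz
      exact hz
  · cases o with
    | none => rw [h3]; rfl
    | some z =>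
      by_cases h : g z = x
      · rw [h1 z h]
        show p.1 x = p.1 z
        rw [← h, p.2 z]
      · rw [h2 z h]
        exact p.2 z
  · ext o
    cases o with
    | none =>
      have hn := f.2 none
      rw [h3] at hn
      simp [hn]
    | some z => rfl
  · rfl

variable [DecidableEq X]

lemma sum_perm_option {M : Type*} [AddCommMonoid M] (F : Perm (Option X) → M) :
    ∑ π, F π = ∑ π' : Perm X, F (optionCongr π')
      + ∑ x : X, ∑ π' : Perm X, F (swap none (some x) * optionCongr π') := by
  rw [← Equiv.sum_comp (Equiv.Perm.decomposeOption (α := X)).symm F, Fintype.sum_prod_type,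
    Fintype.sum_option]
  congr 1
  apply Finset.sum_congr rfl
  intro π _
  congr 1
  rw [Equiv.Perm.decomposeOption_symm_apply]
  simp
  rfl

theorem VV_opt (N : ℕ) (β : Perm X) :
    VV N (optionCongr β) = (N ^ 2 + Fintype.card X) * VV N β := by
  unfold VV
  rw [sum_perm_option]
  have hm : ∀ a b : Perm X, optionCongr a * optionCongr b = optionCongr (a * b) := by
    intro a b; ext o; cases o <;> simp
  have e1 : ∀ π : Perm X, fixN N (optionCongr π) * fixN N (optionCongr π * optionCongr β)
      = N ^ 2 * (fixN N π * fixN N (π * β)) := by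
    intro π
    rw [hm, fixN_opt, fixN_opt]
    ring
  have e2 : ∀ (x : X) (π : Perm X), fixN N (swap none (some x) * optionCongr π)
      * fixN N (swap none (some x) * optionCongr π * optionCongr β)
      = fixN N π * fixN N (π * β) := by
    intro x π
    rw [mul_assoc, hm, fixN_swap_opt, fixN_swap_opt]
  simp_rw [e1, e2]
  rw [Finset.sum_const, Finset.card_univ, ← Finset.mul_sum, smul_eq_mul]
  ring

lemma fixN_three (N : ℕ) (g : Perm X) (x y : X) (hxy : x ≠ y) :
    fixN N (swap none (some x) * optionCongr g * swap none (some y)) = fixN N (g * swap x y) := by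
  rw [fixN_mul_comm, ← mul_assoc]
  have h : (swap none (some y) * swap none (some x) : Perm (Option X))
      = swap none (some x) * optionCongr (swap x y) := by
    rw [optionCongr_swap]
    have hsx : (some x : Option X) ≠ none := by simp
    have hsy : (some y : Option X) ≠ none := by simp
    have hsxy : (some x : Option X) ≠ some y := by simpa using hxy
    generalize (some x : Option X) = a at *
    generalize (some y : Option X) = b at *
    generalize (none : Option X) = c at *
    apply Equiv.ext
    intro o
    simp only [Perm.mul_apply, swap_apply_def]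
    split_ifs <;> simp_all
  have hm : ∀ a b : Perm X, optionCongr a * optionCongr b = optionCongr (a * b) := by
    intro a b; ext o; cases o <;> simp
  rw [h, mul_assoc, hm, fixN_swap_opt, fixN_mul_comm]

theorem VV_opt_swap (N : ℕ) (β : Perm X) (y : X) :
    VV N (optionCongr β * swap none (some y))
      = 2 * N * VV N β + ∑ x ∈ univ.erase y, VV N (β * swap x y) := by
  have hm : ∀ a b : Perm X, optionCongr a * optionCongr b = optionCongr (a * b) := by
    intro a b; ext o; cases o <;> simp
  unfold VV
  rw [sum_perm_option, ← Finset.add_sum_erase univ _ (mem_univ y)]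
  have e1 : ∀ π : Perm X, fixN N (optionCongr π)
      * fixN N (optionCongr π * (optionCongr β * swap none (some y)))
      = N * (fixN N π * fixN N (π * β)) := by
    intro π
    rw [← mul_assoc, hm, fixN_mul_comm _ (optionCongr (π * β)), fixN_swap_opt, fixN_opt]
    ring
  have e2 : ∀ π : Perm X, fixN N (swap none (some y) * optionCongr π)
      * fixN N (swap none (some y) * optionCongr π * (optionCongr β * swap none (some y)))
      = N * (fixN N π * fixN N (π * β)) := by
    intro π
    rw [fixN_swap_opt]
    have : (swap none (some y) * optionCongr π * (optionCongr β * swap none (some y)) :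
        Perm (Option X)) = swap none (some y) * optionCongr (π * β) * (swap none (some y))⁻¹ := by
      rw [swap_inv, ← hm]
      group
    rw [this, fixN_conj, fixN_opt]
    ring
  have e3 : ∀ x ∈ univ.erase y, ∑ π : Perm X, fixN N (swap none (some x) * optionCongr π)
      * fixN N (swap none (some x) * optionCongr π * (optionCongr β * swap none (some y)))
      = ∑ π : Perm X, fixN N π * fixN N (π * (β * swap x y)) := by
    intro x hx
    have hxy : x ≠ y := (Finset.mem_erase.mp hx).1
    apply Finset.sum_congr rfl
    intro π _
    rw [fixN_swap_opt, ← mul_assoc, mul_assoc (swap none (some x)), hm, fixN_three _ _ _ _ hxy,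
      mul_assoc]
  rw [Finset.sum_congr rfl e3]
  simp_rw [e1, e2]
  rw [← Finset.mul_sum]
  ring

end Pool.Agent.H82.Quad
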