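import Mathlib
import Pool.Agent.H63.Quad.Defs
import Pool.Agent.H82.Quad.VRec
import Pool.Agent.H82.Quad.ERec

/-!
# Project QUAD, module Ac: invariant colourings as products of power sums
-/

set_option autoImplicit false

namespace Pool.Agent.H82.Quad

open Finset Equiv Pool.Agent.H63.Quad

/-- Sum over the colourings invariant under `β` of `W`. -/
noncomputable def isum (N : ℕ) {X : Type} [Fintype X] [DecidableEq X] (β : Perm X)
    (W : (X → Fin N) → MvPolynomial (Fin N) ℚ) : MvPolynomial (Fin N) ℚ :=
  ∑ f : X → Fin N, if ∀ x, f (β x) = f x then W f else 0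

/-- weight of a colouring. -/
noncomputable def wt {N : ℕ} {X : Type} [Fintype X] (f : X → Fin N) : MvPolynomial (Fin N) ℚ :=
  ∏ x, MvPolynomial.X (f x)

/-- Sum of the weights of all invariant colourings. -/
noncomputable def pcol (N : ℕ) {X : Type} [Fintype X] [DecidableEq X] (β : Perm X) : MvPolynomial (Fin N) ℚ :=
  isum N β wt

variable {N : ℕ} {X Y : Type} [Fintype X] [Fintype Y] [DecidableEq X] [DecidableEq Y]

lemma isum_congr (e : X ≃ Y) (β : Perm X) (W : (Y → Fin N) → MvPolynomial (Fin N) ℚ) :
    isum N (e.permCongr β) W = isum N β (fun f => W (f ∘ e.symm)) := by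
  unfold isum
  symm
  apply Fintype.sum_equiv (e.arrowCongr (Equiv.refl (Fin N)))
  intro f
  have h : (∀ x, f (β x) = f x) ↔
      ∀ y, (e.arrowCongr (Equiv.refl (Fin N))) f ((e.permCongr β) y)
        = (e.arrowCongr (Equiv.refl (Fin N))) f y := by
    constructor
    · intro h y
      simp [Equiv.permCongr_apply, Equiv.arrowCongr_apply, h]
    · intro h x
      have := h (e x)
      simpa [Equiv.permCongr_apply, Equiv.arrowCongr_apply] using this
  by_cases hc : ∀ x, f (β x) = f x
  · rw [if_pos hc, if_pos (h.mp hc)]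
    rfl
  · rw [if_neg hc, if_neg (fun h' => hc (h.mpr h'))]

omit [DecidableEq X] [DecidableEq Y] in
lemma wt_comp (e : X ≃ Y) (f : X → Fin N) : wt (f ∘ e.symm) = wt f := by
  unfold wt
  exact Equiv.prod_comp e.symm (fun x => (MvPolynomial.X (f x) : MvPolynomial (Fin N) ℚ))

lemma pcol_congr (e : X ≃ Y) (β : Perm X) : pcol N (e.permCongr β) = pcol N β := by
  unfold pcol
  rw [isum_congr]
  congr 1
  funext f
  exact wt_comp e f

lemma isum_const_mul (β : Perm X) (c : MvPolynomial (Fin N) ℚ)
    (W : (X → Fin N) → MvPolynomial (Fin N) ℚ) :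
    isum N β (fun f => c * W f) = c * isum N β W := by
  unfold isum
  rw [Finset.mul_sum]
  apply Finset.sum_congr rfl
  intro f _
  split_ifs <;> simp

lemma isum_sum {ι : Type*} (s : Finset ι) (β : Perm X)
    (W : ι → (X → Fin N) → MvPolynomial (Fin N) ℚ) :
    isum N β (fun f => ∑ i ∈ s, W i f) = ∑ i ∈ s, isum N β (W i) := by
  unfold isum
  rw [Finset.sum_comm]
  apply Finset.sum_congr rfl
  intro f _
  split_ifs <;> simp

lemma isum_congr_W (β : Perm X) (W W' : (X → Fin N) → MvPolynomial (Fin N) ℚ)
    (h : ∀ f, (∀ x, f (β x) = f x) → W f = W' f) : isum N β W = isum N β W' := by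
  unfold isum
  apply Finset.sum_congr rfl
  intro f _
  split_ifs with hf
  · exact h f hf
  · rfl

/-- pairs of colourings. -/
lemma isum_sumCongr (α : Perm X) (β : Perm Y) (W : (X ⊕ Y → Fin N) → MvPolynomial (Fin N) ℚ) :
    isum N (Equiv.Perm.sumCongr α β) W
      = isum N α (fun a => isum N β (fun b => W (Sum.elim a b))) := by
  have key : isum N (Equiv.Perm.sumCongr α β) W
      = ∑ p : (X → Fin N) × (Y → Fin N), if (∀ x, p.1 (α x) = p.1 x) then
        (if (∀ x, p.2 (β x) = p.2 x) then W (Sum.elim p.1 p.2) else 0) else 0 := by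
    unfold isum
    refine Fintype.sum_equiv (Equiv.sumArrowEquivProdArrow X Y (Fin N)) _ _ ?_
    intro f
    have h : (∀ x, f ((Equiv.Perm.sumCongr α β) x) = f x) ↔
        (∀ x, (Equiv.sumArrowEquivProdArrow X Y (Fin N) f).1 (α x)
          = (Equiv.sumArrowEquivProdArrow X Y (Fin N) f).1 x) ∧
        ∀ y, (Equiv.sumArrowEquivProdArrow X Y (Fin N) f).2 (β y)
          = (Equiv.sumArrowEquivProdArrow X Y (Fin N) f).2 y := by
      constructor
      · intro h
        exact ⟨fun x => h (Sum.inl x), fun y => h (Sum.inr y)⟩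
      · rintro ⟨h1, h2⟩ (x | y)
        · exact h1 x
        · exact h2 y
    have hf : Sum.elim (Equiv.sumArrowEquivProdArrow X Y (Fin N) f).1
        (Equiv.sumArrowEquivProdArrow X Y (Fin N) f).2 = f := by
      funext x
      rcases x with x | y <;> rfl
    rw [hf, ← ite_and]
    exact if_congr h rfl rfl
  rw [key, Fintype.sum_prod_type]
  unfold isum
  apply Finset.sum_congr rfl
  intro a _
  split_ifs with ha
  · rfl
  · simp

omit [DecidableEq X] [DecidableEq Y] in
lemma wt_elim (a : X → Fin N) (b : Y → Fin N) : wt (Sum.elim a b) = wt a * wt b := by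
  unfold wt
  rw [Fintype.prod_sum_type]
  simp

/-- Option: one more fixed point. -/
lemma pcol_opt (β : Perm X) : pcol N (optionCongr β) = ps N 1 * pcol N β := by
  have key : pcol N (optionCongr β)
      = ∑ p : Fin N × (X → Fin N), if (∀ x, p.2 (β x) = p.2 x) then
        MvPolynomial.X p.1 * wt p.2 else 0 := by
    unfold pcol isum
    refine Fintype.sum_equiv (Equiv.piOptionEquivProd (β := fun _ => Fin N)) _ _ ?_
    intro f
    have h : (∀ x, f ((optionCongr β) x) = f x) ↔ (∀ x, f (some (β x)) = f (some x)) := by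
      constructor
      · intro h x
        exact h (some x)
      · intro h o
        cases o with
        | none => rfl
        | some x => exact h x
    refine if_congr h ?_ rfl
    unfold wt
    rw [Fintype.prod_option]
    rfl
  rw [key, Fintype.sum_prod_type]
  unfold ps pcol isum
  rw [Finset.sum_mul]
  apply Finset.sum_congr rfl
  intro i _
  rw [pow_one, Finset.mul_sum]
  apply Finset.sum_congr rfl
  intro f _
  split_ifs <;> simp

/-- Option: the new point inserted in the cycle of `y`. -/
lemma pcol_opt_swap (β : Perm X) (y : X) :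
    pcol N (optionCongr β * swap none (some y))
      = isum N β (fun f => MvPolynomial.X (f y) * wt f) := by
  have e1 : (optionCongr β * swap none (some y)) none = some (β y) := by simp
  have e2 : (optionCongr β * swap none (some y)) (some y) = none := by simp
  have e3 : ∀ x, x ≠ y → (optionCongr β * swap none (some y)) (some x) = some (β x) := by
    intro x hx
    rw [Equiv.Perm.mul_apply, swap_apply_of_ne_of_ne (by simp) (by simpa using hx)]
    rfl
  have key : pcol N (optionCongr β * swap none (some y))
      = ∑ p : Fin N × (X → Fin N), if p.1 = p.2 y ∧ (∀ x, p.2 (β x) = p.2 x) then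
        MvPolynomial.X p.1 * wt p.2 else 0 := by
    unfold pcol isum
    refine Fintype.sum_equiv (Equiv.piOptionEquivProd (β := fun _ => Fin N)) _ _ ?_
    intro f
    have h : (∀ x, f ((optionCongr β * swap none (some y)) x) = f x) ↔
        f none = f (some y) ∧ (∀ x, f (some (β x)) = f (some x)) := by
      constructor
      · intro h
        have h1 := h none
        have h2 := h (some y)
        rw [e1] at h1
        rw [e2] at h2
        refine ⟨h2, fun x => ?_⟩
        by_cases hx : x = y
        · rw [hx, h1, h2]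
        · have h3 := h (some x)
          rw [e3 x hx] at h3
          exact h3
      · rintro ⟨h1, h2⟩ o
        cases o with
        | none => rw [e1, h2, h1]
        | some x =>
          by_cases hx : x = y
          · rw [hx, e2, h1]
          · rw [e3 x hx, h2]
    refine if_congr h ?_ rfl
    unfold wt
    rw [Fintype.prod_option]
    rfl
  rw [key, Fintype.sum_prod_type, Finset.sum_comm]
  unfold isum
  apply Finset.sum_congr rfl
  intro f _
  rw [Finset.sum_eq_single (f y)]
  · simp
  · intro i _ hi
    rw [if_neg]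
    rintro ⟨h, -⟩
    exact hi h
  · simp

/-- constant colourings of a full cycle. -/
lemma finRotate_inv_iff (m : ℕ) (f : Fin (m + 1) → Fin N) :
    (∀ x, f (finRotate (m + 1) x) = f x) ↔ ∃ i, f = fun _ => i := by
  constructor
  · intro h
    refine ⟨f 0, ?_⟩
    funext x
    induction x using Fin.induction with
    | zero => rfl
    | succ x ih =>
      rw [← ih, ← h x.castSucc]
      congr 1
      rw [finRotate_apply]
      simp
  · rintro ⟨i, rfl⟩ x
    rfl

lemma isum_param {P : Type*} [Fintype P] (β : Perm X) (φ : P → X → Fin N)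
    (hφ : Function.Injective φ) (h : ∀ f : X → Fin N, (∀ x, f (β x) = f x) ↔ ∃ p, f = φ p)
    (W : (X → Fin N) → MvPolynomial (Fin N) ℚ) : isum N β W = ∑ p, W (φ p) := by
  unfold isum
  have e : (∑ f : X → Fin N, if ∀ x, f (β x) = f x then W f else 0)
      = ∑ f ∈ univ.filter (fun f : X → Fin N => ∀ x, f (β x) = f x), W f :=
    (Finset.sum_filter _ _).symm
  rw [e]
  symm
  apply Finset.sum_bij (fun p _ => φ p)
  · intro p _
    rw [Finset.mem_filter]
    exact ⟨mem_univ _, (h _).mpr ⟨p, rfl⟩⟩
  · intro p _ q _ hpq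
    exact hφ hpq
  · intro f hf
    rw [Finset.mem_filter] at hf
    obtain ⟨p, hp⟩ := (h f).mp hf.2
    exact ⟨p, mem_univ _, hp.symm⟩
  · intro p _
    rfl

lemma isum_finRotate (m : ℕ) (W : (Fin (m + 1) → Fin N) → MvPolynomial (Fin N) ℚ) :
    isum N (finRotate (m + 1)) W = ∑ i : Fin N, W (fun _ => i) := by
  apply isum_param
  · intro i j h
    exact congrFun h 0
  · intro f
    exact finRotate_inv_iff m f

lemma finRotate_ne_last (m : ℕ) (x : Fin (m + 1)) (hx : x ≠ Fin.last m) :
    ((finRotate (m + 1) x : Fin (m + 1)) : ℕ) = x + 1 := by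
  rw [coe_finRotate_of_ne_last hx]

lemma cut_iff (m : ℕ) (j : Fin (m + 1)) (hj : j ≠ Fin.last m) (f : Fin (m + 1) → Fin N) :
    (∀ x, f ((finRotate (m + 1) * swap j (Fin.last m)) x) = f x) ↔
      ∃ p : Fin N × Fin N, f = fun l => if l ≤ j then p.1 else p.2 := by
  have hjm : (j : ℕ) < m := by
    have h1 := j.2
    have h2 : (j : ℕ) ≠ m := by
      intro h
      exact hj (Fin.ext (by simpa using h))
    omega
  have e1 : (finRotate (m + 1) * swap j (Fin.last m)) j = 0 := by
    rw [Equiv.Perm.mul_apply, swap_apply_left, finRotate_last]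
  have e2 : (((finRotate (m + 1) * swap j (Fin.last m)) (Fin.last m) : Fin (m + 1)) : ℕ)
      = j + 1 := by
    rw [Equiv.Perm.mul_apply, swap_apply_right, finRotate_ne_last m j hj]
  have e3 : ∀ x : Fin (m + 1), x ≠ j → x ≠ Fin.last m →
      (((finRotate (m + 1) * swap j (Fin.last m)) x : Fin (m + 1)) : ℕ) = x + 1 := by
    intro x h1 h2
    rw [Equiv.Perm.mul_apply, swap_apply_of_ne_of_ne h1 h2, finRotate_ne_last m x h2]
  constructor
  · intro h
    refine ⟨(f 0, f (Fin.last m)), ?_⟩
    have h0 : f 0 = f j := by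
      have := h j
      rwa [e1] at this
    have hstep : ∀ l : ℕ, ∀ hl : l + 1 < m + 1, l ≠ j → f ⟨l + 1, hl⟩ = f ⟨l, by omega⟩ := by
      intro l hl hlj
      have := h ⟨l, by omega⟩
      rw [← this]
      congr 1
      apply Fin.ext
      rw [e3 ⟨l, by omega⟩ (fun h => hlj (congrArg Fin.val h))
        (fun h => by have := congrArg Fin.val h; simp at this; omega)]
    have hlow : ∀ l : ℕ, ∀ hl : l ≤ j, f ⟨l, by omega⟩ = f 0 := by
      intro l
      induction l with
      | zero => intro _; rfl
      | succ l ih =>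
        intro hl
        rw [hstep l (by omega) (by omega), ih (by omega)]
    have hhigh : ∀ d : ℕ, ∀ hd : j + 1 + d ≤ m, f ⟨j + 1 + d, by omega⟩ = f (Fin.last m) := by
      intro d
      induction d with
      | zero =>
        intro hd
        rw [← h (Fin.last m)]
        congr 1
        apply Fin.ext
        rw [e2]
      | succ d ih =>
        intro hd
        rw [← ih (by omega)]
        exact hstep (j + 1 + d) (by omega) (by omega)
    funext l
    by_cases hl : l ≤ j
    · rw [if_pos hl]
      exact hlow l hl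
    · rw [if_neg hl]
      have hl' : (j : ℕ) < l := by
        rw [not_le] at hl
        exact hl
      have := hhigh (l - (j + 1)) (by have := l.2; omega)
      rw [← this]
      congr 1
      apply Fin.ext
      show (l : ℕ) = j + 1 + (l - (j + 1))
      omega
  · rintro ⟨⟨i, i'⟩, rfl⟩ x
    simp only
    by_cases h1 : x = j
    · subst h1
      rw [e1]
      simp
    · by_cases h2 : x = Fin.last m
      · rw [h2]
        have h3 : ¬ ((finRotate (m + 1) * swap j (Fin.last m)) (Fin.last m) ≤ j) := by
          rw [Fin.le_def, e2]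
          omega
        have h4 : ¬ (Fin.last m ≤ j) := by
          rw [Fin.le_def, Fin.val_last]
          omega
        rw [if_neg h3, if_neg h4]
      · have h3 : ((finRotate (m + 1) * swap j (Fin.last m)) x ≤ j) ↔ x ≤ j := by
          rw [Fin.le_def, Fin.le_def, e3 x h1 h2]
          have : (x : ℕ) ≠ j := fun h => h1 (Fin.ext h)
          omega
        by_cases h4 : x ≤ j
        · rw [if_pos h4, if_pos (h3.mpr h4)]
        · rw [if_neg h4, if_neg (fun h => h4 (h3.mp h))]

/-- a full cycle cut in two. -/
lemma isum_cut (m : ℕ) (j : Fin (m + 1)) (hj : j ≠ Fin.last m)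
    (W : (Fin (m + 1) → Fin N) → MvPolynomial (Fin N) ℚ) :
    isum N (finRotate (m + 1) * swap j (Fin.last m)) W
      = ∑ p : Fin N × Fin N, W (fun l => if l ≤ j then p.1 else p.2) := by
  apply isum_param (P := Fin N × Fin N) _ (fun p l => if l ≤ j then p.1 else p.2)
  · rintro ⟨i, i'⟩ ⟨k, k'⟩ h
    have h1 := congrFun h j
    have h2 := congrFun h (Fin.last m)
    have h3 : ¬ (Fin.last m ≤ j) := by
      rw [not_le]
      exact lt_of_le_of_ne (Fin.le_last j) hj
    simp only [le_refl, if_true, if_neg h3] at h1 h2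
    rw [h1, h2]
  · intro f
    exact cut_iff m j hj f

/-- merging two cycles. -/
lemma isum_merge (m : ℕ) (β : Perm Y) (z : Y)
    (W : (Fin (m + 1) ⊕ Y → Fin N) → MvPolynomial (Fin N) ℚ) :
    isum N (Equiv.Perm.sumCongr (finRotate (m + 1)) β * swap (Sum.inr z) (Sum.inl (Fin.last m))) W
      = ∑ i : Fin N, isum N β (fun b => if b z = i then W (Sum.elim (fun _ => i) b) else 0) := by
  have e1 : (Equiv.Perm.sumCongr (finRotate (m + 1)) β
      * swap (Sum.inr z) (Sum.inl (Fin.last m))) (Sum.inr z) = Sum.inl 0 := by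
    rw [Equiv.Perm.mul_apply, swap_apply_left]
    simp
  have e2 : (Equiv.Perm.sumCongr (finRotate (m + 1)) β
      * swap (Sum.inr z) (Sum.inl (Fin.last m))) (Sum.inl (Fin.last m)) = Sum.inr (β z) := by
    rw [Equiv.Perm.mul_apply, swap_apply_right]
    simp
  have e3 : ∀ x, x ≠ Sum.inr z → x ≠ Sum.inl (Fin.last m) →
      (Equiv.Perm.sumCongr (finRotate (m + 1)) β * swap (Sum.inr z) (Sum.inl (Fin.last m))) x
        = Equiv.Perm.sumCongr (finRotate (m + 1)) β x := by
    intro x h1 h2
    rw [Equiv.Perm.mul_apply, swap_apply_of_ne_of_ne h1 h2]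
  have hiff : ∀ f : Fin (m + 1) ⊕ Y → Fin N,
      (∀ x, f ((Equiv.Perm.sumCongr (finRotate (m + 1)) β
        * swap (Sum.inr z) (Sum.inl (Fin.last m))) x) = f x) ↔
      (∀ x, f (Equiv.Perm.sumCongr (finRotate (m + 1)) β x) = f x)
        ∧ f (Sum.inr z) = f (Sum.inl (Fin.last m)) := by
    intro f
    constructor
    · intro h
      have h1 := h (Sum.inr z)
      have h2 := h (Sum.inl (Fin.last m))
      rw [e1] at h1
      rw [e2] at h2
      have h4 : ∀ x : Fin (m + 1), f (Sum.inl x) = f (Sum.inl 0) := by
        intro x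
        induction x using Fin.induction with
        | zero => rfl
        | succ x ih =>
          rw [← ih]
          have := h (Sum.inl x.castSucc)
          have hne : (Sum.inl x.castSucc : Fin (m + 1) ⊕ Y) ≠ Sum.inl (Fin.last m) := by
            intro hh
            have := Sum.inl.inj hh
            exact absurd this (Fin.castSucc_lt_last x).ne
          rw [e3 _ (by simp) hne] at this
          rw [← this]
          congr 1
          rw [Equiv.Perm.sumCongr_apply, Sum.map_inl, finRotate_apply]
          simp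
      have h5 : f (Sum.inr z) = f (Sum.inl (Fin.last m)) := h1.symm.trans (h4 _).symm
      refine ⟨fun x => ?_, h5⟩
      by_cases hx1 : x = Sum.inr z
      · rw [hx1, Equiv.Perm.sumCongr_apply, Sum.map_inr, h2, h5]
      · by_cases hx2 : x = Sum.inl (Fin.last m)
        · rw [hx2, Equiv.Perm.sumCongr_apply, Sum.map_inl, h4, ← h4 (Fin.last m)]
        · have := h x
          rwa [e3 x hx1 hx2] at this
    · rintro ⟨h, h5⟩ x
      by_cases hx1 : x = Sum.inr z
      · rw [hx1, e1, h5, ← h (Sum.inl (Fin.last m))]
        simp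
      · by_cases hx2 : x = Sum.inl (Fin.last m)
        · rw [hx2, e2, ← h5, ← h (Sum.inr z)]
          simp
        · rw [e3 x hx1 hx2]
          exact h x
  have e4 : isum N (Equiv.Perm.sumCongr (finRotate (m + 1)) β
      * swap (Sum.inr z) (Sum.inl (Fin.last m))) W
      = isum N (Equiv.Perm.sumCongr (finRotate (m + 1)) β)
        (fun f => if f (Sum.inr z) = f (Sum.inl (Fin.last m)) then W f else 0) := by
    unfold isum
    apply Finset.sum_congr rfl
    intro f _
    rw [← ite_and]
    exact if_congr (hiff f) rfl rfl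
  rw [e4, isum_sumCongr, isum_finRotate]
  rfl

end Pool.Agent.H82.Quad
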