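import Mathlib
import Pool.Agent.H82.Quad.Col

/-!
# Project QUAD, module Ac: loop equations, `VV N β * Ev N 1 = Ev N (pcol N β)`
-/

set_option autoImplicit false

namespace Pool.Agent.H82.Quad

open Finset Equiv Pool.Agent.H63.Quad

variable {N : ℕ} {X Y : Type} [Fintype X] [Fintype Y] [DecidableEq X] [DecidableEq Y]

lemma exists_cycle_form (β : Perm X) (y : X) :
    ∃ (m : ℕ) (Z : Type) (_ : Fintype Z) (_ : DecidableEq Z) (β' : Perm Z)
      (e : X ≃ Fin (m + 1) ⊕ Z),
      e.permCongr β = Equiv.Perm.sumCongr (finRotate (m + 1)) β' ∧ e y = Sum.inl (Fin.last m) := by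
  classical
  have hper : Function.IsPeriodicPt β (orderOf β) y := by
    unfold Function.IsPeriodicPt Function.IsFixedPt
    have : (β ^ (orderOf β)) y = y := by rw [pow_orderOf_eq_one]; rfl
    rw [← Equiv.Perm.iterate_eq_pow] at this
    exact this
  have hk : 0 < Function.minimalPeriod β y := hper.minimalPeriod_pos (orderOf_pos β)
  obtain ⟨m, hm⟩ : ∃ m, Function.minimalPeriod β y = m + 1 := ⟨_, (Nat.succ_pred_eq_of_pos hk).symm⟩
  have hmy : β^[m + 1] y = y := by
    rw [← hm]; exact Function.iterate_minimalPeriod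
  have hit : ∀ l, β (β^[l] y) = β^[l + 1] y := fun l => (Function.iterate_succ_apply' β l y).symm
  have hadd : ∀ l, β^[l + (m + 1)] y = β^[l] y := by
    intro l
    rw [Function.iterate_add_apply, hmy]
  set p : X → Prop := fun x => ∀ l : ℕ, β^[l] y ≠ x with hp
  have hpβ : ∀ x, p (β x) ↔ p x := by
    intro x
    constructor
    · intro h l hl
      apply h (l + 1)
      rw [← hit, hl]
    · intro h l hl
      cases l with
      | zero =>
        apply h m
        apply β.injective
        rw [hit, hmy, ← hl]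
        rfl
      | succ l =>
        apply h l
        apply β.injective
        rw [hit, hl]
  let g : Fin (m + 1) ⊕ {x // p x} → X := Sum.elim (fun l => β^[(l : ℕ) + 1] y) Subtype.val
  have hg : Function.Bijective g := by
    constructor
    · intro a b hab
      rcases a with a | a <;> rcases b with b | b
      · have h1 : β^[(a : ℕ) + 1] y = β^[(b : ℕ) + 1] y := hab
        rw [← hit, ← hit] at h1
        have h2 := β.injective h1
        have ha : (a : ℕ) < Function.minimalPeriod β y := by rw [hm]; exact a.2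
        have hb : (b : ℕ) < Function.minimalPeriod β y := by rw [hm]; exact b.2
        rw [Function.iterate_eq_iterate_iff_of_lt_minimalPeriod ha hb] at h2
        rw [Fin.ext h2]
      · have h1 : β^[(a : ℕ) + 1] y = b.1 := hab
        exact absurd h1 (b.2 _)
      · have h1 : a.1 = β^[(b : ℕ) + 1] y := hab
        exact absurd h1.symm (a.2 _)
      · have h1 : a.1 = b.1 := hab
        rw [Subtype.ext h1]
    · intro x
      by_cases hx : p x
      · exact ⟨Sum.inr ⟨x, hx⟩, rfl⟩
      · simp only [hp, not_forall, not_not] at hx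
        obtain ⟨l, hl⟩ := hx
        have hlt : (l + m) % (m + 1) < m + 1 := Nat.mod_lt _ (by omega)
        refine ⟨Sum.inl ⟨(l + m) % (m + 1), hlt⟩, ?_⟩
        show β^[(l + m) % (m + 1) + 1] y = x
        rw [← hit]
        have h3 := Function.iterate_mod_minimalPeriod_eq (f := β) (x := y) (n := l + m)
        rw [hm] at h3
        rw [h3, hit, ← hl, show l + m + 1 = l + (m + 1) by ring, hadd]
  refine ⟨m, {x // p x}, inferInstance, inferInstance, β.subtypePerm hpβ,
    (Equiv.ofBijective g hg).symm, ?_, ?_⟩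
  · ext1 a
    rw [Equiv.permCongr_apply, Equiv.symm_symm, Equiv.symm_apply_eq]
    rcases a with l | z
    · show β (β^[(l : ℕ) + 1] y) = g (Sum.inl (finRotate (m + 1) l))
      show β (β^[(l : ℕ) + 1] y) = β^[((finRotate (m + 1) l : Fin (m + 1)) : ℕ) + 1] y
      by_cases hl : l = Fin.last m
      · rw [hl, finRotate_last, hit]
        show β^[m + 1 + 1] y = β^[0 + 1] y
        rw [show m + 1 + 1 = 1 + (m + 1) by ring, hadd]
      · rw [finRotate_ne_last m l hl, hit]
    · rfl
  · rw [Equiv.symm_apply_eq]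
    show y = β^[m + 1] y
    exact hmy.symm

/-! ### Evaluation of `pcol` in the standard form -/

omit [DecidableEq X] in
lemma wt_const (m : ℕ) (i : Fin N) : wt (fun _ : Fin (m + 1) => i) = MvPolynomial.X i ^ (m + 1) := by
  unfold wt
  rw [Finset.prod_const, Finset.card_univ, Fintype.card_fin]

lemma wt_cut (m : ℕ) (j : Fin (m + 1)) (i i' : Fin N) :
    wt (fun l : Fin (m + 1) => if l ≤ j then i else i')
      = MvPolynomial.X i ^ ((j : ℕ) + 1) * MvPolynomial.X i' ^ (m - j) := by
  unfold wt
  have h : ∀ l : Fin (m + 1), (MvPolynomial.X (if l ≤ j then i else i') : MvPolynomial (Fin N) ℚ)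
      = if l ≤ j then MvPolynomial.X i else MvPolynomial.X i' := by
    intro l; split_ifs <;> rfl
  simp_rw [h]
  rw [Finset.prod_ite, Finset.prod_const, Finset.prod_const]
  have h1 : univ.filter (fun l : Fin (m + 1) => l ≤ j) = Iic j := by ext; simp
  have h2 : univ.filter (fun l : Fin (m + 1) => ¬ l ≤ j) = Ioi j := by ext; simp
  rw [h1, h2, Fin.card_Iic, Fin.card_Ioi]
  simp

lemma isum_std (m : ℕ) (β : Perm Y) (W : (Fin (m + 1) ⊕ Y → Fin N) → MvPolynomial (Fin N) ℚ) :
    isum N (Equiv.Perm.sumCongr (finRotate (m + 1)) β) W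
      = ∑ i : Fin N, isum N β (fun b => W (Sum.elim (fun _ => i) b)) := by
  rw [isum_sumCongr, isum_finRotate]

lemma pcol_std (m : ℕ) (β : Perm Y) :
    pcol N (Equiv.Perm.sumCongr (finRotate (m + 1)) β) = ps N (m + 1) * pcol N β := by
  unfold pcol
  rw [isum_std]
  simp_rw [wt_elim, isum_const_mul, wt_const]
  rw [← Finset.sum_mul]
  rfl

lemma pcol_std_opt (m : ℕ) (β : Perm Y) :
    pcol N (optionCongr (Equiv.Perm.sumCongr (finRotate (m + 1)) β)
      * swap none (some (Sum.inl (Fin.last m)))) = ps N (m + 2) * pcol N β := by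
  rw [pcol_opt_swap, isum_std]
  simp_rw [wt_elim, Sum.elim_inl, ← mul_assoc, isum_const_mul, wt_const, ← pow_succ']
  rw [← Finset.sum_mul]
  rfl

lemma pcol_std_cut (m : ℕ) (β : Perm Y) (j : Fin (m + 1)) (hj : j ≠ Fin.last m) :
    pcol N (Equiv.Perm.sumCongr (finRotate (m + 1)) β * swap (Sum.inl j) (Sum.inl (Fin.last m)))
      = ps N (j + 1) * ps N (m - j) * pcol N β := by
  have e : Equiv.Perm.sumCongr (finRotate (m + 1)) β * swap (Sum.inl j) (Sum.inl (Fin.last m))
      = Equiv.Perm.sumCongr (finRotate (m + 1) * swap j (Fin.last m)) β := by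
    rw [← Equiv.Perm.sumCongr_swap_one, Equiv.Perm.sumCongr_mul, mul_one]
  unfold pcol
  rw [e, isum_sumCongr, isum_cut m j hj]
  simp_rw [wt_elim, isum_const_mul, wt_cut]
  rw [← Finset.sum_mul]
  congr 1
  unfold ps
  rw [Finset.sum_mul_sum, Fintype.sum_prod_type]

lemma Dk_pcol (k : ℕ) (β : Perm Y) :
    Dk N k (pcol N β) = isum N β (fun b => (∑ z, MvPolynomial.X (b z) ^ k) * wt b) := by
  unfold pcol isum
  rw [map_sum]
  apply Finset.sum_congr rfl
  intro b _
  split_ifs
  · unfold wt
    rw [Dk_prod k univ _ (fun z => MvPolynomial.X (b z) ^ k) (fun z _ => Dk_X k (b z)), mul_comm]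
  · exact map_zero _

lemma pcol_std_merge (m : ℕ) (β : Perm Y) :
    ∑ z : Y, pcol N (Equiv.Perm.sumCongr (finRotate (m + 1)) β
      * swap (Sum.inr z) (Sum.inl (Fin.last m))) = Dk N (m + 1) (pcol N β) := by
  rw [Dk_pcol]
  unfold pcol
  simp_rw [isum_merge, ← isum_sum]
  apply isum_congr_W
  intro b _
  rw [Finset.sum_mul]
  apply Finset.sum_congr rfl
  intro z _
  rw [Finset.sum_eq_single (b z)]
  · rw [if_pos rfl, wt_elim, wt_const]
  · intro i _ hi
    rw [if_neg (Ne.symm hi)]
  · simp

lemma ps_zero : ps N 0 = (N : MvPolynomial (Fin N) ℚ) := by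
  unfold ps
  simp

lemma Ev_add (F G : MvPolynomial (Fin N) ℚ) : Ev N (F + G) = Ev N F + Ev N G := by
  unfold Ev; rw [mul_add, map_add]

lemma Ev_natCast_mul (n : ℕ) (F : MvPolynomial (Fin N) ℚ) : Ev N (n * F) = n * Ev N F := by
  unfold Ev
  have : vdm N ^ 2 * ((n : MvPolynomial (Fin N) ℚ) * F) = (n : ℚ) • (vdm N ^ 2 * F) := by
    rw [MvPolynomial.smul_eq_C_mul, map_natCast]
    ring
  rw [this, map_smul, smul_eq_mul]

lemma Ev_sum {ι : Type*} (s : Finset ι) (F : ι → MvPolynomial (Fin N) ℚ) :
    Ev N (∑ i ∈ s, F i) = ∑ i ∈ s, Ev N (F i) := by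
  unfold Ev
  rw [Finset.mul_sum, map_sum]

/-- the recursion of `Ev N (pcol N β)` in the standard form. -/
lemma Ev_std (m : ℕ) (β : Perm Y) :
    Ev N (pcol N (optionCongr (Equiv.Perm.sumCongr (finRotate (m + 1)) β)
      * swap none (some (Sum.inl (Fin.last m)))))
      = 2 * N * Ev N (pcol N (Equiv.Perm.sumCongr (finRotate (m + 1)) β))
        + ∑ x ∈ univ.erase (Sum.inl (Fin.last m)),
          Ev N (pcol N (Equiv.Perm.sumCongr (finRotate (m + 1)) β
            * swap x (Sum.inl (Fin.last m)))) := by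
  rw [pcol_std_opt, show m + 2 = (m + 1) + 1 from rfl, loop]
  have h1 : ∑ x ∈ univ.erase (Sum.inl (Fin.last m) : Fin (m + 1) ⊕ Y),
          Ev N (pcol N (Equiv.Perm.sumCongr (finRotate (m + 1)) β
            * swap x (Sum.inl (Fin.last m))))
      = ∑ j : Fin m, Ev N (ps N (j + 1) * ps N (m - j) * pcol N β)
        + Ev N (Dk N (m + 1) (pcol N β)) := by
    rw [Finset.sum_erase_eq_sub (mem_univ _), Fintype.sum_sum_type, Fin.sum_univ_castSucc,
      ← Ev_sum, ← Ev_sum, pcol_std_merge]
    have : ∀ j : Fin m, pcol N (Equiv.Perm.sumCongr (finRotate (m + 1)) β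
        * swap (Sum.inl j.castSucc) (Sum.inl (Fin.last m)))
        = ps N (j + 1) * ps N (m - j) * pcol N β := by
      intro j
      rw [pcol_std_cut m β j.castSucc (Fin.castSucc_lt_last j).ne]
      rfl
    simp_rw [this]
    rw [← Ev_sum]
    ring
  rw [h1, pcol_std, Finset.Nat.sum_antidiagonal_eq_sum_range_succ_mk, Finset.sum_range_succ,
    Finset.sum_range_succ', Finset.sum_range]
  simp only [Nat.sub_self, Nat.sub_zero]
  rw [ps_zero]
  have h2 : Ev N ((N : MvPolynomial (Fin N) ℚ) * ps N (m + 1) * pcol N β)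
      = N * Ev N (ps N (m + 1) * pcol N β) := by
    rw [mul_assoc, Ev_natCast_mul]
  have h3 : Ev N (ps N (m + 1) * (N : MvPolynomial (Fin N) ℚ) * pcol N β)
      = N * Ev N (ps N (m + 1) * pcol N β) := by
    rw [mul_comm (ps N (m + 1)), h2]
  rw [h2, h3]
  have h4 : ∀ j : Fin m, m + 1 - ((j : ℕ) + 1) = m - j := fun j => by omega
  simp_rw [h4]
  ring

omit [Fintype X] [Fintype Y] in
lemma permCongr_swap (e : X ≃ Y) (a b : X) : e.permCongr (swap a b) = swap (e a) (e b) := by
  rw [Equiv.permCongr_def]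
  exact Equiv.symm_trans_swap_trans a b e

/-- the recursion of `Ev N (pcol N β)`. -/
theorem Ev_opt_swap (β : Perm X) (y : X) :
    Ev N (pcol N (optionCongr β * swap none (some y)))
      = 2 * N * Ev N (pcol N β) + ∑ x ∈ univ.erase y, Ev N (pcol N (β * swap x y)) := by
  obtain ⟨m, Z, _, _, β', e, he, hy⟩ := exists_cycle_form β y
  have h1 : pcol N (optionCongr β * swap none (some y))
      = pcol N (optionCongr (Equiv.Perm.sumCongr (finRotate (m + 1)) β')
          * swap none (some (Sum.inl (Fin.last m)))) := by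
    rw [← pcol_congr (optionCongr e), Equiv.permCongr_mul, ← he, permCongr_swap]
    congr 2
    · ext1 o
      rcases o with _ | o
      · rfl
      · simp only [Equiv.permCongr_apply]
        rfl
    · rw [← hy]
      rfl
  have h2 : pcol N β = pcol N (Equiv.Perm.sumCongr (finRotate (m + 1)) β') := by
    rw [← pcol_congr e, he]
  have h3 : ∑ x ∈ univ.erase y, Ev N (pcol N (β * swap x y))
      = ∑ x ∈ univ.erase (Sum.inl (Fin.last m)),
          Ev N (pcol N (Equiv.Perm.sumCongr (finRotate (m + 1)) β'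
            * swap x (Sum.inl (Fin.last m)))) := by
    rw [Finset.sum_erase_eq_sub (mem_univ _), Finset.sum_erase_eq_sub (mem_univ _)]
    have h4 : ∀ x, pcol N (β * swap x y) = pcol N (Equiv.Perm.sumCongr (finRotate (m + 1)) β'
            * swap (e x) (Sum.inl (Fin.last m))) := by
      intro x
      rw [← pcol_congr e, Equiv.permCongr_mul, he, permCongr_swap, hy]
    simp_rw [h4]
    rw [hy, Equiv.sum_comp e (fun x => Ev N (pcol N (Equiv.Perm.sumCongr (finRotate (m + 1)) β'
            * swap x (Sum.inl (Fin.last m)))))]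
  rw [h1, h2, h3]
  exact Ev_std m β'

lemma Ev_ps_one_mul (F : MvPolynomial (Fin N) ℚ) :
    Ev N (ps N 1 * F) = (N : ℚ) ^ 2 * Ev N F + Ev N (Dk N 0 F) := by
  have h := loop (N := N) 0 F
  rw [zero_add] at h
  rw [h, Finset.Nat.antidiagonal_zero, Finset.sum_singleton]
  rw [ps_zero, mul_assoc, Ev_natCast_mul, Ev_natCast_mul]
  ring

theorem Ev_opt (β : Perm X) :
    Ev N (pcol N (optionCongr β)) = ((N : ℚ) ^ 2 + Fintype.card X) * Ev N (pcol N β) := by
  rw [pcol_opt, Ev_ps_one_mul, Dk_pcol]
  have : isum N β (fun b => (∑ z, MvPolynomial.X (b z) ^ 0) * wt b)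
      = (Fintype.card X : MvPolynomial (Fin N) ℚ) * pcol N β := by
    unfold pcol
    rw [← isum_const_mul]
    congr 1
    funext b
    simp
  rw [this, Ev_natCast_mul]
  ring

/-- Target (2): the permutation sum is the Laguerre functional. -/
theorem VV_mul_Ev (N : ℕ) (X : Type) [Fintype X] [inst : DecidableEq X] (β : Perm X) :
    (VV N β : ℚ) * Ev N 1 = Ev N (pcol N β) := by
  revert inst β
  refine @Fintype.induction_empty_option
    (fun X _ => ∀ (inst : DecidableEq X) (β : Perm X), (VV N β : ℚ) * Ev N 1 = Ev N (pcol N β))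
    ?_ ?_ ?_ X _
  · intro α γ _ e ih inst β
    classical
    let _ := Fintype.ofEquiv γ e.symm
    have h := ih (Classical.decEq α) (e.symm.permCongr β)
    rw [VV_congr, pcol_congr] at h
    exact h
  · intro inst β
    have h1 : VV N β = 1 := by
      unfold VV fixN
      simp
    have h2 : pcol N β = 1 := by
      unfold pcol isum wt
      simp
    rw [h1, h2]
    simp
  · intro X _ ih inst β
    classical
    have hinst : inst = (fun a b => Option.instDecidableEq a b) := Subsingleton.elim _ _
    subst hinst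
    obtain ⟨⟨o, β'⟩, hβ⟩ := (Equiv.Perm.decomposeOption (α := X)).symm.surjective β
    rw [Equiv.Perm.decomposeOption_symm_apply] at hβ
    rcases o with _ | x
    · have hβ2 : β = optionCongr β' := by
        rw [← hβ]
        ext1 o
        simp
      rw [hβ2, VV_opt, Ev_opt, ← ih _ β']
      push_cast
      ring
    · have hβ2 : β = optionCongr β' * swap none (some (β'.symm x)) := by
        rw [← hβ]
        have : optionCongr β' * swap none (some (β'.symm x)) * (optionCongr β')⁻¹
            = swap none (some x) := by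
          rw [← Equiv.permCongr_eq_mul, permCongr_swap]
          simp
        rw [← this]
        group
      rw [hβ2, VV_opt_swap, Ev_opt_swap, ← ih _ β']
      simp_rw [← ih _]
      push_cast
      rw [add_mul, Finset.sum_mul]
      ring

/-- For a fixed point free involution, the colourings give the power sum `p_2 ^ n`. -/
lemma pcol_inv2 (n : ℕ) : ∀ (X : Type) [Fintype X] [DecidableEq X] (β : Perm X), Inv2 β →
    Fintype.card X = 2 * n → pcol N β = ps N 2 ^ n := by
  induction n with
  | zero =>
    intro X _ _ β _ hX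
    have : IsEmpty X := Fintype.card_eq_zero_iff.mp (by simpa using hX)
    unfold pcol isum wt
    simp
  | succ n ih =>
    intro X _ _ β hβ hX
    have hpos : 0 < Fintype.card X := by omega
    obtain ⟨y⟩ := Fintype.card_pos_iff.mp hpos
    obtain ⟨m, Z, _, _, β', e, he, hy⟩ := exists_cycle_form β y
    have hinv : Inv2 (Equiv.Perm.sumCongr (finRotate (m + 1)) β') := by
      rw [← he]
      intro d
      have h := hβ (e.symm d)
      constructor
      · simp only [Equiv.permCongr_apply, Equiv.symm_apply_apply]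
        rw [h.1]
        simp
      · intro h2
        apply h.2
        rw [Equiv.permCongr_apply] at h2
        rw [← e.apply_eq_iff_eq, h2]
        simp
    have hm : m = 1 := by
      have h1 := hinv (Sum.inl (Fin.last m))
      have h2 : Equiv.Perm.sumCongr (finRotate (m + 1)) β' (Sum.inl (Fin.last m)) = Sum.inl 0 := by
        simp
      rw [h2] at h1
      have h3 : (0 : Fin (m + 1)) ≠ Fin.last m := fun h => h1.2 (by rw [h])
      have h4 : Equiv.Perm.sumCongr (finRotate (m + 1)) β' (Sum.inl 0)
          = Sum.inl (finRotate (m + 1) 0) := by simp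
      rw [h4] at h1
      have h5 := Sum.inl.inj h1.1
      have h6 := congrArg Fin.val h5
      rw [finRotate_ne_last m 0 h3] at h6
      simp at h6
      omega
    subst hm
    have hinv' : Inv2 β' := by
      intro d
      have h := hinv (Sum.inr d)
      constructor
      · exact Sum.inr.inj h.1
      · intro h2
        apply h.2
        simp [h2]
    have hZ : Fintype.card Z = 2 * n := by
      have := Fintype.card_congr e
      rw [Fintype.card_sum, Fintype.card_fin] at this
      omega
    rw [← pcol_congr e, he, pcol_std, ih Z β' hinv' hZ, pow_succ']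

/-- Target (3). -/
theorem VV_inv2 (N n : ℕ) (β : Perm (Fin (2 * n))) (hβ : Inv2 β) :
    (VV N β : ℚ) * Ev N 1 = Ev N (ps N 2 ^ n) := by
  rw [VV_mul_Ev, pcol_inv2 n _ β hβ (by simp)]

/-- Target (4). -/
theorem Ev_ps_one (N n : ℕ) :
    Ev N (ps N 1 * ps N 2 ^ n) = ((N : ℚ) ^ 2 + 2 * n) * Ev N (ps N 2 ^ n) := by
  rw [Ev_ps_one_mul]
  have h1 : Dk N 0 (ps N 2) = 2 * ps N 2 := by
    unfold ps
    rw [map_sum, Finset.mul_sum]
    apply Finset.sum_congr rfl
    intro i _
    rw [Derivation.leibniz_pow, Dk_X]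
    simp only [smul_eq_mul, nsmul_eq_mul]
    push_cast
    ring
  have h2 : Dk N 0 (ps N 2 ^ n) = ((2 * n : ℕ) : MvPolynomial (Fin N) ℚ) * ps N 2 ^ n := by
    cases n with
    | zero => simp
    | succ n =>
      rw [Derivation.leibniz_pow, h1]
      simp only [smul_eq_mul, nsmul_eq_mul, Nat.add_sub_cancel]
      push_cast
      ring
  rw [h2, Ev_natCast_mul]
  push_cast
  ring

end Pool.Agent.H82.Quad
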