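import Mathlib

/-!
# Project QUAD, part B5 (abstract form)

Nonnegative weights `w n g` with total mass controlled by `Q n`, concentrated near `θ n`,
approximately log-convex near `θ n` up to an exponentially small error, and such that one
step costs at most a constant factor. Then `w n (gs n) / w n (gs n - 1) → 1`.
-/

set_option autoImplicit false

namespace Pool.Agent.H82.Quad

open Filter Topology Real

/-- growth along an approximately log-convex sequence. -/
lemma growth (v : ℕ → ℝ) (J : ℕ) (e δ : ℝ) (hpos : ∀ j ≤ J + 1, 0 < v j)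
    (he : 0 ≤ e) (hδ : 0 < δ)
    (hlc : ∀ j, j + 2 ≤ J + 1 → v (j + 1) ^ 2 ≤ exp e * (v j * v (j + 2)))
    (h0 : (1 + δ) * v 0 ≤ v 1) (hJ : e * J ≤ log (1 + δ) - log (1 + δ / 2)) :
    ∀ j, j ≤ J → (1 + δ / 2) ^ j * v 0 ≤ v j ∧ exp (- (e * j)) * (1 + δ) * v j ≤ v (j + 1) := by
  intro j
  induction j with
  | zero =>
    intro _
    constructor
    · simp
    · simpa using h0
  | succ j ih =>
    intro hj
    obtain ⟨h1, h2⟩ := ih (by omega)
    have hj0 := hpos j (by omega)
    have hj1 := hpos (j + 1) (by omega)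
    have hj2 := hpos (j + 2) (by omega)
    have hexp : 1 + δ / 2 ≤ exp (- (e * j)) * (1 + δ) := by
      have h3 : e * j ≤ log (1 + δ) - log (1 + δ / 2) := by
        refine le_trans ?_ hJ
        apply mul_le_mul_of_nonneg_left _ he
        exact_mod_cast (by omega : j ≤ J)
      have h4 : exp (log (1 + δ / 2)) ≤ exp (- (e * j) + log (1 + δ)) := by
        apply exp_le_exp.mpr
        linarith
      rwa [exp_add, exp_log (by positivity), exp_log (by positivity)] at h4
    constructor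
    · calc (1 + δ / 2) ^ (j + 1) * v 0 = (1 + δ / 2) * ((1 + δ / 2) ^ j * v 0) := by ring
        _ ≤ (1 + δ / 2) * v j := by
          apply mul_le_mul_of_nonneg_left h1; positivity
        _ ≤ exp (- (e * j)) * (1 + δ) * v j := by
          apply mul_le_mul_of_nonneg_right hexp hj0.le
        _ ≤ v (j + 1) := h2
    · have h5 := hlc j (by omega)
      have h6 : exp (- (e * ((j + 1 : ℕ) : ℝ))) = exp (- e) * exp (- (e * j)) := by
        rw [← exp_add]; congr 1; push_cast; ring
      rw [h6]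
      have h7 : exp (-e) * v (j + 1) ^ 2 ≤ v j * v (j + 2) := by
        have := mul_le_mul_of_nonneg_left h5 (exp_pos (-e)).le
        rwa [← mul_assoc, ← exp_add, neg_add_cancel, exp_zero, one_mul] at this
      have h8 : exp (-e) * exp (-(e * j)) * (1 + δ) * v (j + 1) * v j ≤ v (j + 2) * v j := by
        calc exp (-e) * exp (-(e * j)) * (1 + δ) * v (j + 1) * v j
            = exp (-e) * v (j + 1) * (exp (-(e * j)) * (1 + δ) * v j) := by ring
          _ ≤ exp (-e) * v (j + 1) * v (j + 1) := by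
            apply mul_le_mul_of_nonneg_left h2; positivity
          _ = exp (-e) * v (j + 1) ^ 2 := by ring
          _ ≤ v j * v (j + 2) := h7
          _ = v (j + 2) * v j := by ring
      exact le_of_mul_le_mul_right h8 hj0

/-- walking: lower bounds propagate. -/
lemma walk (v : ℕ → ℝ) (J : ℕ) (c E Q0 : ℝ) (hc : 0 < c) (hc1 : c ≤ 1)
    (hstep : ∀ j, j < J → c * (v j - E) ≤ v (j + 1))
    (h0 : Q0 ≤ v 0) (hE : 2 * E ≤ (c / 2) ^ J * Q0) (hQ : 0 ≤ Q0) :
    ∀ j, j ≤ J → (c / 2) ^ j * Q0 ≤ v j := by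
  intro j
  induction j with
  | zero => intro _; simpa using h0
  | succ j ih =>
    intro hj
    have h1 := ih (by omega)
    have h2 := hstep j (by omega)
    have h3 : (c / 2) ^ J * Q0 ≤ (c / 2) ^ j * Q0 := by
      apply mul_le_mul_of_nonneg_right _ hQ
      apply pow_le_pow_of_le_one (by positivity) (by linarith) (by omega)
    calc (c / 2) ^ (j + 1) * Q0 = c / 2 * ((c / 2) ^ j * Q0) := by ring
      _ ≤ c / 2 * v j := by apply mul_le_mul_of_nonneg_left h1; positivity
      _ ≤ c * (v j - E) := by nlinarith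
      _ ≤ v (j + 1) := h2

lemma eventually_log_lt (K ε : ℝ) (hε : 0 < ε) : ∀ᶠ n : ℕ in atTop, K + log (4 * n) ≤ ε * n := by
  have h1 : ∀ᶠ x : ℝ in atTop, ‖log x‖ ≤ (ε / 2) * ‖(id x : ℝ)‖ :=
    (Real.isLittleO_log_id_atTop).def (by positivity)
  have h2 := (tendsto_natCast_atTop_atTop (R := ℝ)).eventually h1
  have h3 : ∀ᶠ n : ℕ in atTop, (K + log 4) / (ε / 2) ≤ (n : ℝ) :=
    (tendsto_natCast_atTop_atTop (R := ℝ)).eventually_ge_atTop _
  filter_upwards [h2, h3, eventually_gt_atTop 0] with n hn1 hn2 hn3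
  have hn : (0 : ℝ) < n := by exact_mod_cast hn3
  rw [log_mul (by norm_num) hn.ne']
  rw [div_le_iff₀ (by positivity)] at hn2
  have h4 : log (n : ℝ) ≤ ε / 2 * n := by
    have := le_trans (le_abs_self (log (n : ℝ))) hn1
    simpa [abs_of_pos hn] using this
  linarith

/-- Lower bounds near `θ n`. -/
lemma lower (w : ℕ → ℕ → ℝ) (Q : ℕ → ℝ) (θ : ℝ) (hQ : ∀ n, 0 < Q n)
    (hconc : ∀ η > 0, ∀ᶠ n : ℕ in atTop, ∃ g : ℕ, |(g : ℝ) - θ * n| ≤ η * n
      ∧ Q n ≤ 4 * n * w n g)
    (c c' η0 : ℝ) (hc : 0 < c) (hc1 : c ≤ 1)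
    (hup : ∀ᶠ n : ℕ in atTop, ∀ g : ℕ, |(g : ℝ) - θ * n| ≤ η0 * n →
      c * (w n g - exp (-(c' * n)) * Q n) ≤ w n (g + 1))
    (hdn : ∀ᶠ n : ℕ in atTop, ∀ g : ℕ, |(g : ℝ) - θ * n| ≤ η0 * n →
      c * (w n (g + 1) - exp (-(c' * n)) * Q n) ≤ w n g)
    (α : ℝ) (hα : 0 < α) (hα0 : α ≤ η0) (hαc : 4 * log (2 / c) * α ≤ c' / 2) (hc' : 0 < c') :
    ∀ᶠ n : ℕ in atTop, ∀ g : ℕ, |(g : ℝ) - θ * n| ≤ α * n →
      exp (-(4 * log (2 / c) * α * n)) * Q n ≤ w n g := by
  set lam := log (2 / c) with hlam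
  have hlam0 : 0 < lam := log_pos (by rw [lt_div_iff₀ hc]; linarith)
  have hcl : c / 2 = exp (-lam) := by
    rw [hlam, ← log_inv, exp_log (by positivity)]
    field_simp
  filter_upwards [hconc α hα, hup, hdn, eventually_log_lt (lam + log 2) (2 * lam * α) (by positivity),
    eventually_log_lt (lam + log 2) (c' / 4) (by positivity), eventually_gt_atTop 0]
    with n hn1 hn2 hn3 hn4 hn5 hn6 g hg
  obtain ⟨g1, hg1, hg1Q⟩ := hn1
  have hn : (0 : ℝ) < n := by exact_mod_cast hn6
  have hQn := hQ n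
  have hw1 : Q n / (4 * n) ≤ w n g1 := by
    rw [div_le_iff₀ (by positivity)]
    linarith
  rw [abs_le] at hg1 hg
  have hlog : exp (-(log (4 * n))) = 1 / (4 * n) := by
    rw [← log_inv, exp_log (by positivity), one_div]
  -- general estimate for a walk of J steps
  have main : ∀ (v : ℕ → ℝ) (J : ℕ), (J : ℝ) ≤ 2 * α * n → v 0 = w n g1 → 
      (∀ j, j < J → c * (v j - exp (-(c' * n)) * Q n) ≤ v (j + 1)) →
      exp (-(4 * lam * α * n)) * Q n ≤ v J := by
    intro v J hJ hv0 hstep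
    have hpow : (c / 2) ^ J * (Q n / (4 * n)) = exp (-(lam * J) - log (4 * n)) * Q n := by
      rw [hcl, ← exp_nat_mul, sub_eq_add_neg, exp_add, hlog]
      rw [show (J : ℝ) * -lam = -(lam * J) by ring]
      field_simp
    have hE : 2 * (exp (-(c' * n)) * Q n) ≤ (c / 2) ^ J * (Q n / (4 * n)) := by
      rw [hpow, ← mul_assoc]
      apply mul_le_mul_of_nonneg_right _ hQn.le
      have h2 : (2 : ℝ) = exp (log 2) := (exp_log (by norm_num)).symm
      rw [h2, ← exp_add]
      apply exp_le_exp.mpr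
      have : lam * J ≤ lam * (2 * α * n) := mul_le_mul_of_nonneg_left hJ hlam0.le
      have h5 : lam * (2 * α * n) ≤ c' / 4 * n := by nlinarith
      have h6 := hn5
      nlinarith
    have := walk v J c (exp (-(c' * n)) * Q n) (Q n / (4 * n)) hc hc1 hstep (by rw [hv0]; exact hw1)
      hE (by positivity) J le_rfl
    refine le_trans ?_ this
    rw [hpow]
    apply mul_le_mul_of_nonneg_right _ hQn.le
    apply exp_le_exp.mpr
    have h5 : lam * J ≤ lam * (2 * α * n) := mul_le_mul_of_nonneg_left hJ hlam0.le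
    have h2 : 0 < log 2 := log_pos (by norm_num)
    nlinarith
  rcases le_total g1 g with hle | hle
  · obtain ⟨J, rfl⟩ := Nat.exists_eq_add_of_le hle
    apply main (fun j => w n (g1 + j)) J
    · push_cast at hg
      linarith [hg.2, hg1.1]
    · rfl
    · intro j hj
      apply hn2 (g1 + j)
      rw [abs_le]
      have hj' : (j : ℝ) ≤ J := by exact_mod_cast hj.le
      push_cast at hg ⊢
      constructor
      · nlinarith [hg1.1, (Nat.cast_nonneg j : (0 : ℝ) ≤ j)]
      · nlinarith [hg.2]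
  · obtain ⟨J, hJ⟩ := Nat.exists_eq_add_of_le hle
    have hgJ : g = g1 - J := by omega
    rw [hgJ]
    apply main (fun j => w n (g1 - j)) J
    · have : (g1 : ℝ) = g + J := by exact_mod_cast hJ
      linarith [hg.1, hg1.2]
    · rfl
    · intro j hj
      have e : g1 - j = g1 - (j + 1) + 1 := by omega
      show c * (w n (g1 - j) - _) ≤ w n (g1 - (j + 1))
      rw [e]
      apply hn3
      rw [abs_le]
      have hj' : (j : ℝ) + 1 ≤ J := by exact_mod_cast hj
      have h1 : (g1 : ℝ) = g + J := by exact_mod_cast hJ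
      have h2 : ((g1 - (j + 1) : ℕ) : ℝ) = g1 - (j + 1) := by
        rw [Nat.cast_sub (by omega)]; push_cast; ring
      rw [h2]
      constructor
      · nlinarith [hg.1]
      · nlinarith [hg1.2, (Nat.cast_nonneg j : (0 : ℝ) ≤ j)]

lemma lc_clean (n : ℝ) (hn : 2 ≤ n) (C x a b E : ℝ) (hC : 0 ≤ C) (hE0 : 0 < E)
    (hEx : E ≤ x / (4 * n)) (h : (x - E) ^ 2 ≤ (1 + C / n) * (a * b)) :
    x ^ 2 ≤ exp ((C + 4) / n) * (a * b) := by
  have hn0 : 0 < n := by linarith
  have hx0 : 0 < x := by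
    have h10 : 0 < x / (4 * n) := lt_of_lt_of_le hE0 hEx
    rw [div_pos_iff] at h10
    rcases h10 with h10 | h10
    · exact h10.1
    · linarith [h10.2]
  have h11 : x * (1 - 1 / (4 * n)) ≤ x - E := by
    have : x * (1 - 1 / (4 * n)) = x - x / (4 * n) := by field_simp
    rw [this]; linarith
  have hq : (1 : ℝ) / (4 * n) ≤ 1 / 8 := by
    rw [div_le_div_iff₀ (by positivity) (by norm_num)]
    linarith
  have hq0 : (0 : ℝ) < 1 / (4 * n) := by positivity
  have h12 : (x * (1 - 1 / (4 * n))) ^ 2 ≤ (x - E) ^ 2 := by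
    apply pow_le_pow_left₀ _ h11
    apply mul_nonneg hx0.le
    linarith
  have h13 : exp (-(2 * (1 / (4 * n)))) ≤ 1 - 1 / (4 * n) := by
    set y := 1 / (4 * n) with hy
    have h14 := Real.add_one_le_exp (2 * y)
    rw [exp_neg, inv_le_comm₀ (exp_pos _) (by linarith)]
    refine le_trans ?_ h14
    rw [inv_le_iff_one_le_mul₀ (by linarith)]
    nlinarith
  have h16 : exp (-(1 / n)) * x ^ 2 ≤ (x - E) ^ 2 := by
    refine le_trans ?_ h12
    rw [mul_pow, mul_comm]
    apply mul_le_mul_of_nonneg_left _ (by positivity)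
    have := pow_le_pow_left₀ (exp_pos _).le h13 2
    rwa [← exp_nat_mul, show ((2 : ℕ) : ℝ) * -(2 * (1 / (4 * n))) = -(1 / n) by
      push_cast; field_simp; norm_num] at this
  have h17 : 1 + C / n ≤ exp (C / n) := by
    have := Real.add_one_le_exp (C / n); linarith
  have hC1 : 0 < 1 + C / n := by positivity
  have h18 : 0 ≤ a * b := by
    by_contra hneg
    push Not at hneg
    have : (1 + C / n) * (a * b) < 0 := mul_neg_of_pos_of_neg hC1 hneg
    nlinarith [sq_nonneg (x - E)]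
  have h19 : exp (-(1 / n)) * x ^ 2 ≤ exp (C / n) * (a * b) :=
    le_trans h16 (le_trans h (mul_le_mul_of_nonneg_right h17 h18))
  have h20 : x ^ 2 = exp (1 / n) * (exp (-(1 / n)) * x ^ 2) := by
    rw [← mul_assoc, ← exp_add]; simp
  rw [h20]
  calc exp (1 / n) * (exp (-(1 / n)) * x ^ 2)
      ≤ exp (1 / n) * (exp (C / n) * (a * b)) :=
        mul_le_mul_of_nonneg_left h19 (exp_pos _).le
    _ = exp (1 / n + C / n) * (a * b) := by rw [exp_add]; ring
    _ ≤ exp ((C + 4) / n) * (a * b) := by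
        apply mul_le_mul_of_nonneg_right _ h18
        apply exp_le_exp.mpr
        rw [← add_div]
        apply div_le_div_of_nonneg_right _ hn0.le
        linarith

lemma main_contra (v : ℕ → ℝ) (J : ℕ) (n Q δ C lam η η2 : ℝ) (hn : 0 < n) (hQ : 0 < Q)
    (hC : 0 ≤ C) (hδ : 0 < δ)
    (hpos : ∀ j ≤ J + 1, 0 < v j)
    (hlc : ∀ j, j + 2 ≤ J + 1 → v (j + 1) ^ 2 ≤ exp ((C + 4) / n) * (v j * v (j + 2)))
    (hcon : (1 + δ) * v 0 ≤ v 1) (hvQ : v J ≤ Q)
    (hv0 : exp (-(4 * lam * (2 * η) * n)) * Q ≤ v 0) (hη2 : 0 < η2)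
    (hJ1 : (J : ℝ) ≤ η2 * n / 2) (hJ2 : η2 * n / 2 < J + 1) (h5 : 8 ≤ n * η2)
    (hηb : η * (64 * lam) ≤ log (1 + δ / 2) * η2)
    (hη2c : η2 * (C + 4) ≤ log (1 + δ) - log (1 + δ / 2)) : False := by
  set κ := log (1 + δ / 2) with hκ
  have hκ0 : 0 < κ := log_pos (by linarith)
  have hG := growth v J ((C + 4) / n) δ hpos (by positivity) hδ hlc hcon ?_ J le_rfl
  · have h10 := hG.1
    have h13 : (1 + δ / 2) ^ J * (exp (-(4 * lam * (2 * η) * n)) * Q) ≤ Q := by
      refine le_trans ?_ (le_trans h10 hvQ)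
      apply mul_le_mul_of_nonneg_left hv0; positivity
    have h14 : (1 + δ / 2) ^ J = exp (κ * J) := by
      rw [mul_comm, exp_nat_mul, exp_log (by positivity)]
    rw [h14, ← mul_assoc, ← exp_add] at h13
    have h15 : exp (κ * J + -(4 * lam * (2 * η) * n)) ≤ 1 := by
      by_contra hcc
      push Not at hcc
      have := mul_lt_mul_of_pos_right hcc hQ
      linarith
    rw [exp_le_one_iff] at h15
    have h16 : η * (64 * lam) * n ≤ κ * η2 * n := mul_le_mul_of_nonneg_right hηb hn.le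
    have h17 : κ * (η2 * n / 2) < κ * (J + 1) := mul_lt_mul_of_pos_left hJ2 hκ0
    have h18 : κ * 8 ≤ κ * (n * η2) := mul_le_mul_of_nonneg_left h5 hκ0.le
    have e1 : κ * (n * η2) = κ * η2 * n := by ring
    have e2 : κ * (η2 * n / 2) = κ * η2 * n / 2 := by ring
    have e3 : κ * ((J : ℝ) + 1) = κ * J + κ := by ring
    have e4 : η * (64 * lam) * n = 8 * (4 * lam * (2 * η) * n) := by ring
    rw [e1] at h18
    rw [e2, e3] at h17
    rw [e4] at h16
    have h19 : 0 < κ * η2 * n := by positivity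
    linarith
  · have h18 : η2 * (C + 4) * n ≤ (log (1 + δ) - κ) * n := mul_le_mul_of_nonneg_right hη2c hn.le
    rw [div_mul_eq_mul_div, div_le_iff₀ hn]
    have : (C + 4) * J ≤ (C + 4) * (η2 * n / 2) :=
      mul_le_mul_of_nonneg_left hJ1 (by positivity)
    have e1 : (C + 4) * (η2 * n / 2) = η2 * (C + 4) * n / 2 := by ring
    have h19 : 0 < η2 * (C + 4) * n := by positivity
    rw [e1] at this
    linarith

/-- Part B5. -/
theorem partB5 (w : ℕ → ℕ → ℝ) (Q : ℕ → ℝ) (θ : ℝ) (hθ : 0 < θ) (gs : ℕ → ℕ)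
    (hgs : Tendsto (fun n => (gs n : ℝ) / n) atTop (𝓝 θ))
    (hQ : ∀ n, 0 < Q n) (hwQ : ∀ n g, w n g ≤ Q n)
    (hconc : ∀ η > 0, ∀ᶠ n : ℕ in atTop, ∃ g : ℕ, |(g : ℝ) - θ * n| ≤ η * n
      ∧ Q n ≤ 4 * n * w n g)
    (C c c' η0 : ℝ) (hC : 0 ≤ C) (hc : 0 < c) (hc1 : c ≤ 1) (hc' : 0 < c') (hη0 : 0 < η0)
    (hup : ∀ᶠ n : ℕ in atTop, ∀ g : ℕ, |(g : ℝ) - θ * n| ≤ η0 * n →
      c * (w n g - exp (-(c' * n)) * Q n) ≤ w n (g + 1))
    (hdn : ∀ᶠ n : ℕ in atTop, ∀ g : ℕ, |(g : ℝ) - θ * n| ≤ η0 * n →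
      c * (w n (g + 1) - exp (-(c' * n)) * Q n) ≤ w n g)
    (hlc : ∀ᶠ n : ℕ in atTop, ∀ g : ℕ, |(g : ℝ) - θ * n| ≤ η0 * n →
      exp (-(c' * n)) * Q n ≤ w n (g + 1) →
      (w n (g + 1) - exp (-(c' * n)) * Q n) ^ 2 ≤ (1 + C / n) * (w n g * w n (g + 2))) :
    Tendsto (fun n => w n (gs n) / w n (gs n - 1)) atTop (𝓝 1) := by
  set lam := log (2 / c) with hlam
  have hlam0 : 0 < lam := log_pos (by rw [lt_div_iff₀ hc]; linarith)
  -- the key statement
  have key : ∀ δ : ℝ, 0 < δ → δ ≤ 1 → ∀ᶠ n : ℕ in atTop, 0 < w n (gs n) ∧ 0 < w n (gs n - 1) ∧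
      w n (gs n) < (1 + δ) * w n (gs n - 1) ∧ w n (gs n - 1) < (1 + δ) * w n (gs n) := by
    intro δ hδ hδ1
    set κ := log (1 + δ / 2) with hκ
    have hκ0 : 0 < κ := log_pos (by linarith)
    set gap := log (1 + δ) - log (1 + δ / 2) with hgap
    have hgap0 : 0 < gap := by
      rw [hgap]
      have := log_lt_log (by positivity : (0 : ℝ) < 1 + δ / 2) (by linarith : 1 + δ / 2 < 1 + δ)
      linarith
    set η2 := min (min η0 (θ / 2)) (min (c' / (16 * lam)) (gap / (C + 4))) with hη2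
    have hη2pos : 0 < η2 := by
      rw [hη2]
      apply lt_min (lt_min hη0 (by positivity)) (lt_min _ _) <;> positivity
    have hη2a : η2 ≤ η0 := le_trans (min_le_left _ _) (min_le_left _ _)
    have hη2d : η2 ≤ θ / 2 := le_trans (min_le_left _ _) (min_le_right _ _)
    have hη2b : η2 ≤ c' / (16 * lam) := le_trans (min_le_right _ _) (min_le_left _ _)
    have hη2c : η2 ≤ gap / (C + 4) := le_trans (min_le_right _ _) (min_le_right _ _)
    rw [le_div_iff₀ (by positivity)] at hη2b hη2c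
    -- small radius
    set η := min (η2 / 8) (κ * η2 / (64 * lam)) with hη
    have hηpos : 0 < η := by
      rw [hη]; apply lt_min <;> positivity
    have hηa : η ≤ η2 / 8 := min_le_left _ _
    have hηb : η ≤ κ * η2 / (64 * lam) := min_le_right _ _
    rw [le_div_iff₀ (by positivity)] at hηb
    have hL2 := lower w Q θ hQ hconc c c' η0 hc hc1 hup hdn η2 hη2pos hη2a
      (by rw [← hlam]; linarith) hc'
    have hL1 := lower w Q θ hQ hconc c c' η0 hc hc1 hup hdn (2 * η) (by positivity)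
      (by linarith) (by rw [← hlam]; nlinarith) hc'
    rw [← hlam] at hL1 hL2
    have hgs' : ∀ᶠ n : ℕ in atTop, |(gs n : ℝ) / n - θ| < η :=
      (Metric.tendsto_nhds.mp hgs η hηpos).mono (fun n hn => by rwa [Real.dist_eq] at hn)
    have hbig : ∀ K : ℝ, ∀ᶠ n : ℕ in atTop, K ≤ (n : ℝ) := fun K =>
      (tendsto_natCast_atTop_atTop (R := ℝ)).eventually_ge_atTop K
    filter_upwards [hL1, hL2, hgs', hlc, hbig (8 / η2), hbig 2, hbig (1 / η), 
      eventually_log_lt 0 (c' / 2) (by positivity)]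
      with n h1 h2 h3 h4 h5 h6 h7 h9
    have hn : (0 : ℝ) < n := by linarith
    rw [div_le_iff₀ hη2pos] at h5
    rw [div_le_iff₀ hηpos] at h7
    have hQn := hQ n
    set g := gs n with hg
    have hgθ : |(g : ℝ) - θ * n| ≤ η * n := by
      have : (g : ℝ) - θ * n = ((g : ℝ) / n - θ) * n := by field_simp
      rw [this, abs_mul, abs_of_pos hn]
      exact mul_le_mul_of_nonneg_right h3.le hn.le
    set J := ⌊η2 * n / 2⌋₊ with hJdef
    have hJ1 : (J : ℝ) ≤ η2 * n / 2 := Nat.floor_le (by positivity)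
    have hJ2 : η2 * n / 2 < J + 1 := Nat.lt_floor_add_one _
    have hgθ' := hgθ
    rw [abs_le] at hgθ
    have hηn : η * n ≤ η2 * n / 8 := by
      have := mul_le_mul_of_nonneg_right hηa hn.le
      linarith
    -- approximate log-convexity without error
    have hlc' : ∀ g' : ℕ, |(g' : ℝ) - θ * n| ≤ η2 * n → |((g' + 1 : ℕ) : ℝ) - θ * n| ≤ η2 * n →
        w n (g' + 1) ^ 2 ≤ exp ((C + 4) / n) * (w n g' * w n (g' + 2)) := by
      intro g' hg' hg'1
      have hη20 : η2 * n ≤ η0 * n := mul_le_mul_of_nonneg_right hη2a hn.le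
      have hwl := h2 (g' + 1) hg'1
      set x := w n (g' + 1) with hx
      set E := exp (-(c' * n)) * Q n with hE
      have hE0 : 0 < E := by positivity
      have hEx : E ≤ x / (4 * n) := by
        rw [le_div_iff₀ (by positivity)]
        refine le_trans ?_ hwl
        have : (4 * (n : ℝ)) = exp (log (4 * n)) := (exp_log (by positivity)).symm
        rw [hE, this, mul_assoc, mul_comm (Q n), ← mul_assoc, ← exp_add]
        apply mul_le_mul_of_nonneg_right _ hQn.le
        apply exp_le_exp.mpr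
        have : 4 * lam * η2 * n ≤ c' / 4 * n := by
          apply mul_le_mul_of_nonneg_right _ hn.le
          linarith
        have h00 : 0 < c' * n := by positivity
        linarith
      have hx0 : 0 < x := lt_of_lt_of_le (by positivity) hwl
      have hEx' : E ≤ x := by
        refine le_trans hEx ?_
        rw [div_le_iff₀ (by positivity)]
        nlinarith
      exact lc_clean n h6 C x _ _ E hC hE0 hEx (h4 g' (le_trans hg' hη20) hEx')
    have main : ∀ pos : ℕ → ℕ, (∀ j ≤ J + 1, |(pos j : ℝ) - θ * n| ≤ η2 * n) →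
        |(pos 0 : ℝ) - θ * n| ≤ 2 * η * n →
        (∀ j, j + 2 ≤ J + 1 → w n (pos (j + 1)) ^ 2
          ≤ exp ((C + 4) / n) * (w n (pos j) * w n (pos (j + 2)))) →
        ¬ ((1 + δ) * w n (pos 0) ≤ w n (pos 1)) := by
      intro pos hp1 hp2 hp3 hcon
      exact main_contra (fun j => w n (pos j)) J n (Q n) δ C lam η η2 hn hQn hC hδ
        (fun j hj => lt_of_lt_of_le (by positivity) (h2 (pos j) (hp1 j hj))) hp3 hcon
        (hwQ n (pos J)) (h1 (pos 0) hp2) hη2pos hJ1 hJ2 h5 hηb hη2c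
    -- positions
    have hθn : 2 * (η2 * n) ≤ θ * n := by
      have := mul_le_mul_of_nonneg_right hη2d hn.le
      linarith
    have h5' : 8 ≤ η2 * n := by rw [mul_comm]; exact h5
    have h7' : 1 ≤ η * n := by rw [mul_comm]; exact h7
    have e7 : 2 * η * n = 2 * (η * n) := by ring
    obtain ⟨hgl, hgr⟩ := hgθ
    have hgJ : J + 1 < g := by
      have : ((J + 1 : ℕ) : ℝ) < g := by
        push_cast
        linarith
      exact_mod_cast this
    have hg1 : ((g - 1 : ℕ) : ℝ) = g - 1 := by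
      rw [Nat.cast_sub (by omega)]; simp
    have p1 : |((g - 1 : ℕ) : ℝ) - θ * n| ≤ 2 * η * n := by
      rw [hg1, abs_le, e7]
      constructor <;> linarith
    have p2 : |(g : ℝ) - θ * n| ≤ 2 * η * n := by
      rw [abs_le, e7]
      constructor <;> linarith
    have w1 : 0 < w n g := lt_of_lt_of_le (by positivity) (h1 g p2)
    have w2 : 0 < w n (g - 1) := lt_of_lt_of_le (by positivity) (h1 (g - 1) p1)
    have hR : ∀ j ≤ J + 1, |((g - 1 + j : ℕ) : ℝ) - θ * n| ≤ η2 * n := by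
      intro j hj
      have hj' : (j : ℝ) ≤ J + 1 := by exact_mod_cast hj
      have hj0 : (0 : ℝ) ≤ j := Nat.cast_nonneg j
      rw [Nat.cast_add, hg1, abs_le]
      constructor <;> linarith
    have hL : ∀ j ≤ J + 1, |((g - j : ℕ) : ℝ) - θ * n| ≤ η2 * n := by
      intro j hj
      have hj' : (j : ℝ) ≤ J + 1 := by exact_mod_cast hj
      have hj0 : (0 : ℝ) ≤ j := Nat.cast_nonneg j
      rw [Nat.cast_sub (by omega), abs_le]
      constructor <;> linarith
    refine ⟨w1, w2, ?_, ?_⟩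
    · by_contra hcon
      push Not at hcon
      refine main (fun j => g - 1 + j) hR (by simpa using p1) ?_ ?_
      · intro j hj
        exact hlc' (g - 1 + j) (hR j (by omega)) (hR (j + 1) (by omega))
      · show (1 + δ) * w n (g - 1 + 0) ≤ w n (g - 1 + 1)
        rw [add_zero, show g - 1 + 1 = g by omega]
        exact hcon
    · by_contra hcon
      push Not at hcon
      refine main (fun j => g - j) hL (by simpa using p2) ?_ ?_
      · intro j hj
        have e1 : g - (j + 1) = g - (j + 2) + 1 := by omega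
        have e2 : g - j = g - (j + 2) + 2 := by omega
        have := hlc' (g - (j + 2)) (hL (j + 2) hj) (by rw [← e1]; exact hL (j + 1) (by omega))
        show w n (g - (j + 1)) ^ 2 ≤ exp ((C + 4) / n) * (w n (g - j) * w n (g - (j + 2)))
        rw [e1, e2, mul_comm (w n (g - (j + 2) + 2))]
        exact this
      · exact hcon
  rw [Metric.tendsto_nhds]
  intro ε hε
  have hδ0 : 0 < min (ε / 2) 1 := by positivity
  filter_upwards [key (min (ε / 2) 1) hδ0 (min_le_right _ _)] with n hn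
  obtain ⟨h1, h2, h3, h4⟩ := hn
  set δ := min (ε / 2) 1 with hδ
  have hδε : δ ≤ ε / 2 := min_le_left _ _
  rw [Real.dist_eq, abs_lt]
  constructor
  · rw [lt_sub_iff_add_lt, lt_div_iff₀ h2]
    have h5 : w n (gs n - 1) * (1 - δ) < w n (gs n) := by
      nlinarith
    nlinarith
  · rw [sub_lt_iff_lt_add, div_lt_iff₀ h2]
    nlinarith

end Pool.Agent.H82.Quad
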