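import Mathlib
import Pool.Agent.H63.Quad.BPlan
import Pool.Agent.H82.Quad.B5

/-!
# Project QUAD, part B5b: the final argument (ALC and concentration give the limit)
-/

set_option autoImplicit false

namespace Pool.Agent.H82.Quad

open Filter Topology Real Pool.Agent.H63.Quad

/-- walking away from the mode. -/
lemma walk_mode (v : ℕ → ℝ) (J : ℕ) (e E : ℝ) (he : 0 ≤ e)
    (h0 : 0 < v 0) (h1 : exp (-e) * v 0 ≤ v 1)
    (hlc : ∀ j, j + 2 ≤ J + 1 → E ≤ v (j + 1) → v (j + 1) ^ 2 ≤ exp e * (v j * v (j + 2)))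
    (hEJ : E ≤ exp (-(e * (J + 1 : ℝ) ^ 2)) * v 0) :
    ∀ j, j ≤ J → exp (-(e * (j : ℝ) ^ 2)) * v 0 ≤ v j ∧
      exp (-(e * (j + 1))) * v j ≤ v (j + 1) := by
  intro j
  induction j with
  | zero =>
    intro _
    constructor
    · simp
    · simpa using h1
  | succ j ih =>
    intro hj
    obtain ⟨ih1, ih2⟩ := ih (by omega)
    have hvj : 0 < v j := lt_of_lt_of_le (by positivity) ih1
    have h3 : exp (-(e * ((j + 1 : ℕ) : ℝ) ^ 2)) * v 0 ≤ v (j + 1) := by
      refine le_trans ?_ ih2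
      calc exp (-(e * ((j + 1 : ℕ) : ℝ) ^ 2)) * v 0
          ≤ exp (-(e * (j + 1)) + -(e * (j : ℝ) ^ 2)) * v 0 := by
            apply mul_le_mul_of_nonneg_right _ h0.le
            apply exp_le_exp.mpr
            have hj0 : (0 : ℝ) ≤ j := Nat.cast_nonneg j
            push_cast
            nlinarith [mul_nonneg he hj0]
        _ = exp (-(e * (j + 1))) * (exp (-(e * (j : ℝ) ^ 2)) * v 0) := by rw [exp_add]; ring
        _ ≤ exp (-(e * (j + 1))) * v j := mul_le_mul_of_nonneg_left ih1 (exp_pos _).le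
    have hvj1 : 0 < v (j + 1) := lt_of_lt_of_le (by positivity) h3
    refine ⟨h3, ?_⟩
    have hEv : E ≤ v (j + 1) := by
      refine le_trans hEJ (le_trans ?_ h3)
      apply mul_le_mul_of_nonneg_right _ h0.le
      apply exp_le_exp.mpr
      have hjJ : ((j + 1 : ℕ) : ℝ) ≤ J + 1 := by exact_mod_cast (by omega : j + 1 ≤ J + 1)
      have : ((j + 1 : ℕ) : ℝ) ^ 2 ≤ (J + 1 : ℝ) ^ 2 := pow_le_pow_left₀ (by positivity) hjJ 2
      have := mul_le_mul_of_nonneg_left this he
      linarith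
    have h4 := hlc j (by omega) hEv
    have h5 : exp (-e) * v (j + 1) ^ 2 ≤ v j * v (j + 2) := by
      have := mul_le_mul_of_nonneg_left h4 (exp_pos (-e)).le
      rwa [← mul_assoc, ← exp_add, neg_add_cancel, exp_zero, one_mul] at this
    have h6 : exp (-(e * (((j + 1 : ℕ) : ℝ) + 1))) * v (j + 1) * v j ≤ v (j + 2) * v j := by
      have e1 : exp (-(e * (((j + 1 : ℕ) : ℝ) + 1))) = exp (-e) * exp (-(e * (j + 1))) := by
        rw [← exp_add]; congr 1; push_cast; ring
      rw [e1]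
      calc exp (-e) * exp (-(e * (j + 1))) * v (j + 1) * v j
          = exp (-e) * v (j + 1) * (exp (-(e * (j + 1))) * v j) := by ring
        _ ≤ exp (-e) * v (j + 1) * v (j + 1) := by
          apply mul_le_mul_of_nonneg_left ih2; positivity
        _ = exp (-e) * v (j + 1) ^ 2 := by ring
        _ ≤ v j * v (j + 2) := h5
        _ = v (j + 2) * v j := by ring
    exact le_of_mul_le_mul_right h6 hvj

lemma main_contra' (v : ℕ → ℝ) (J : ℕ) (n δ C β η2 : ℝ) (hn : 0 < n)
    (hC : 0 ≤ C) (hδ : 0 < δ)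
    (hpos : ∀ j ≤ J + 1, 0 < v j)
    (hlc : ∀ j, j + 2 ≤ J + 1 → v (j + 1) ^ 2 ≤ exp (C / n) * (v j * v (j + 2)))
    (hcon : (1 + δ) * v 0 ≤ v 1) (hvQ : v J ≤ 1)
    (hv0 : exp (-(β * n)) ≤ v 0) (hη2 : 0 < η2)
    (hJ1 : (J : ℝ) ≤ η2 * n / 2) (hJ2 : η2 * n / 2 < J + 1) (h5 : 8 ≤ n * η2)
    (hβ : 8 * β ≤ log (1 + δ / 2) * η2)
    (hη2c : η2 * C ≤ log (1 + δ) - log (1 + δ / 2)) : False := by
  set κ := log (1 + δ / 2) with hκ
  have hκ0 : 0 < κ := log_pos (by linarith)
  have hG := growth v J (C / n) δ hpos (by positivity) hδ hlc hcon ?_ J le_rfl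
  · have h10 := hG.1
    have h13 : (1 + δ / 2) ^ J * exp (-(β * n)) ≤ 1 := by
      refine le_trans ?_ (le_trans h10 hvQ)
      apply mul_le_mul_of_nonneg_left hv0; positivity
    have h14 : (1 + δ / 2) ^ J = exp (κ * J) := by
      rw [mul_comm, exp_nat_mul, exp_log (by positivity)]
    rw [h14, ← exp_add, exp_le_one_iff] at h13
    have h16 : 8 * β * n ≤ κ * η2 * n := mul_le_mul_of_nonneg_right hβ hn.le
    have h17 : κ * (η2 * n / 2) < κ * (J + 1) := mul_lt_mul_of_pos_left hJ2 hκ0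
    have h18 : κ * 8 ≤ κ * (n * η2) := mul_le_mul_of_nonneg_left h5 hκ0.le
    have e1 : κ * (n * η2) = κ * η2 * n := by ring
    have e2 : κ * (η2 * n / 2) = κ * η2 * n / 2 := by ring
    have e3 : κ * ((J : ℝ) + 1) = κ * J + κ := by ring
    rw [e1] at h18
    rw [e2, e3] at h17
    have h19 : 0 < κ * η2 * n := by positivity
    linarith
  · have h18 : η2 * C * n ≤ (log (1 + δ) - κ) * n := mul_le_mul_of_nonneg_right hη2c hn.le
    rw [div_mul_eq_mul_div, div_le_iff₀ hn]
    have : C * J ≤ C * (η2 * n / 2) := mul_le_mul_of_nonneg_left hJ1 (by positivity)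
    have e1 : C * (η2 * n / 2) = η2 * C * n / 2 := by ring
    have h19 : 0 ≤ η2 * C * n := by positivity
    rw [e1] at this
    linarith

/-- Abstract final argument: `w n g ≤ 1`, lower bounds near `θ n`, approximate log-convexity. -/
theorem final_abs (w : ℕ → ℕ → ℝ) (θ : ℝ) (hθ : 0 < θ) (gs : ℕ → ℕ)
    (hgs : Tendsto (fun n => (gs n : ℝ) / n) atTop (𝓝 θ))
    (hw1 : ∀ n g, w n g ≤ 1) (C c' : ℝ) (hC : 0 < C) (hc' : 0 < c')
    (hlow : ∀ β > 0, ∃ α > 0, ∀ᶠ n : ℕ in atTop, ∀ g : ℕ, |(g : ℝ) - θ * n| ≤ α * n →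
      exp (-(β * n)) ≤ w n g)
    (hlc : ∀ᶠ n : ℕ in atTop, ∀ g : ℕ, exp (-(c' * n)) ≤ w n (g + 1) →
      w n (g + 1) ^ 2 ≤ exp (C / n) * (w n g * w n (g + 2))) :
    Tendsto (fun n => w n (gs n) / w n (gs n - 1)) atTop (𝓝 1) := by
  have key : ∀ δ : ℝ, 0 < δ → δ ≤ 1 → ∀ᶠ n : ℕ in atTop, 0 < w n (gs n) ∧ 0 < w n (gs n - 1) ∧
      w n (gs n) < (1 + δ) * w n (gs n - 1) ∧ w n (gs n - 1) < (1 + δ) * w n (gs n) := by
    intro δ hδ hδ1
    set κ := log (1 + δ / 2) with hκ
    have hκ0 : 0 < κ := log_pos (by linarith)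
    set gap := log (1 + δ) - log (1 + δ / 2) with hgap
    have hgap0 : 0 < gap := by
      rw [hgap]
      have := log_lt_log (by positivity : (0 : ℝ) < 1 + δ / 2) (by linarith : 1 + δ / 2 < 1 + δ)
      linarith
    obtain ⟨α2, hα2, hL2'⟩ := hlow c' hc'
    set η2 := min (min α2 (θ / 2)) (gap / C) with hη2
    have hη2pos : 0 < η2 := by
      rw [hη2]
      apply lt_min (lt_min hα2 (by positivity))
      positivity
    have hη2a : η2 ≤ α2 := le_trans (min_le_left _ _) (min_le_left _ _)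
    have hη2d : η2 ≤ θ / 2 := le_trans (min_le_left _ _) (min_le_right _ _)
    have hη2c : η2 ≤ gap / C := min_le_right _ _
    rw [le_div_iff₀ (by positivity)] at hη2c
    obtain ⟨α1, hα1, hL1'⟩ := hlow (κ * η2 / 8) (by positivity)
    set η := min (η2 / 8) (α1 / 2) with hη
    have hηpos : 0 < η := by
      rw [hη]; apply lt_min <;> positivity
    have hηa : η ≤ η2 / 8 := min_le_left _ _
    have hηb : η ≤ α1 / 2 := min_le_right _ _
    have hgs' : ∀ᶠ n : ℕ in atTop, |(gs n : ℝ) / n - θ| < η :=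
      (Metric.tendsto_nhds.mp hgs η hηpos).mono (fun n hn => by rwa [Real.dist_eq] at hn)
    have hbig : ∀ K : ℝ, ∀ᶠ n : ℕ in atTop, K ≤ (n : ℝ) := fun K =>
      (tendsto_natCast_atTop_atTop (R := ℝ)).eventually_ge_atTop K
    filter_upwards [hL1', hL2', hgs', hlc, hbig (8 / η2), hbig 2, hbig (1 / η)]
      with n h1 h2 h3 h4 h5 h6 h7
    have hn : (0 : ℝ) < n := by linarith
    rw [div_le_iff₀ hη2pos] at h5
    rw [div_le_iff₀ hηpos] at h7
    have hη2n : η2 * n ≤ α2 * n := mul_le_mul_of_nonneg_right hη2a hn.le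
    have hη1n : 2 * (η * n) ≤ α1 * n := by
      have := mul_le_mul_of_nonneg_right hηb hn.le
      linarith
    set g := gs n with hg
    have hgθ : |(g : ℝ) - θ * n| ≤ η * n := by
      have : (g : ℝ) - θ * n = ((g : ℝ) / n - θ) * n := by field_simp
      rw [this, abs_mul, abs_of_pos hn]
      exact mul_le_mul_of_nonneg_right h3.le hn.le
    set J := ⌊η2 * n / 2⌋₊ with hJdef
    have hJ1 : (J : ℝ) ≤ η2 * n / 2 := Nat.floor_le (by positivity)
    have hJ2 : η2 * n / 2 < J + 1 := Nat.lt_floor_add_one _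
    rw [abs_le] at hgθ
    have hηn : η * n ≤ η2 * n / 8 := by
      have := mul_le_mul_of_nonneg_right hηa hn.le
      linarith
    have hlc' : ∀ g' : ℕ, |((g' + 1 : ℕ) : ℝ) - θ * n| ≤ η2 * n →
        w n (g' + 1) ^ 2 ≤ exp (C / n) * (w n g' * w n (g' + 2)) := by
      intro g' hg'1
      exact h4 g' (h2 (g' + 1) (le_trans hg'1 hη2n))
    have main : ∀ pos : ℕ → ℕ, (∀ j ≤ J + 1, |(pos j : ℝ) - θ * n| ≤ η2 * n) →
        |(pos 0 : ℝ) - θ * n| ≤ 2 * (η * n) →
        (∀ j, j + 2 ≤ J + 1 → w n (pos (j + 1)) ^ 2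
          ≤ exp (C / n) * (w n (pos j) * w n (pos (j + 2)))) →
        ¬ ((1 + δ) * w n (pos 0) ≤ w n (pos 1)) := by
      intro pos hp1 hp2 hp3 hcon
      exact main_contra' (fun j => w n (pos j)) J n δ C (κ * η2 / 8) η2 hn hC.le hδ
        (fun j hj => lt_of_lt_of_le (exp_pos _) (h2 (pos j) (le_trans (hp1 j hj) hη2n))) hp3 hcon
        (hw1 n (pos J)) (h1 (pos 0) (le_trans hp2 hη1n)) hη2pos hJ1 hJ2 h5
        (by rw [← hκ]; linarith) hη2c
    -- positions
    have hθn : 2 * (η2 * n) ≤ θ * n := by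
      have := mul_le_mul_of_nonneg_right hη2d hn.le
      linarith
    have h5' : 8 ≤ η2 * n := by rw [mul_comm]; exact h5
    have h7' : 1 ≤ η * n := by rw [mul_comm]; exact h7
    obtain ⟨hgl, hgr⟩ := hgθ
    have hgJ : J + 1 < g := by
      have : ((J + 1 : ℕ) : ℝ) < g := by
        push_cast
        linarith
      exact_mod_cast this
    have hg1 : ((g - 1 : ℕ) : ℝ) = g - 1 := by
      rw [Nat.cast_sub (by omega)]; simp
    have p1 : |((g - 1 : ℕ) : ℝ) - θ * n| ≤ 2 * (η * n) := by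
      rw [hg1, abs_le]
      constructor <;> linarith
    have p2 : |(g : ℝ) - θ * n| ≤ 2 * (η * n) := by
      rw [abs_le]
      constructor <;> linarith
    have w1 : 0 < w n g := lt_of_lt_of_le (exp_pos _) (h1 g (le_trans p2 hη1n))
    have w2 : 0 < w n (g - 1) := lt_of_lt_of_le (exp_pos _) (h1 (g - 1) (le_trans p1 hη1n))
    have hR : ∀ j ≤ J + 1, |((g - 1 + j : ℕ) : ℝ) - θ * n| ≤ η2 * n := by
      intro j hj
      have hj' : (j : ℝ) ≤ J + 1 := by exact_mod_cast hj
      have hj0 : (0 : ℝ) ≤ j := Nat.cast_nonneg j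
      rw [Nat.cast_add, hg1, abs_le]
      constructor <;> linarith
    have hL : ∀ j ≤ J + 1, |((g - j : ℕ) : ℝ) - θ * n| ≤ η2 * n := by
      intro j hj
      have hj' : (j : ℝ) ≤ J + 1 := by exact_mod_cast hj
      have hj0 : (0 : ℝ) ≤ j := Nat.cast_nonneg j
      rw [Nat.cast_sub (by omega), abs_le]
      constructor <;> linarith
    refine ⟨w1, w2, ?_, ?_⟩
    · by_contra hcon
      push Not at hcon
      refine main (fun j => g - 1 + j) hR (by simpa using p1) ?_ ?_
      · intro j hj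
        exact hlc' (g - 1 + j) (hR (j + 1) (by omega))
      · show (1 + δ) * w n (g - 1 + 0) ≤ w n (g - 1 + 1)
        rw [add_zero, show g - 1 + 1 = g by omega]
        exact hcon
    · by_contra hcon
      push Not at hcon
      refine main (fun j => g - j) hL (by simpa using p2) ?_ ?_
      · intro j hj
        have e1 : g - (j + 1) = g - (j + 2) + 1 := by omega
        have e2 : g - j = g - (j + 2) + 2 := by omega
        have := hlc' (g - (j + 2)) (by rw [← e1]; exact hL (j + 1) (by omega))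
        show w n (g - (j + 1)) ^ 2 ≤ exp (C / n) * (w n (g - j) * w n (g - (j + 2)))
        rw [e1, e2, mul_comm (w n (g - (j + 2) + 2))]
        exact this
      · exact hcon
  rw [Metric.tendsto_nhds]
  intro ε hε
  have hδ0 : 0 < min (ε / 2) 1 := by positivity
  filter_upwards [key (min (ε / 2) 1) hδ0 (min_le_right _ _)] with n hn
  obtain ⟨h1, h2, h3, h4⟩ := hn
  set δ := min (ε / 2) 1 with hδ
  have hδε : δ ≤ ε / 2 := min_le_left _ _
  rw [Real.dist_eq, abs_lt]
  constructor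
  · rw [lt_sub_iff_add_lt, lt_div_iff₀ h2]
    have h5 : w n (gs n - 1) * (1 - δ) < w n (gs n) := by
      nlinarith
    nlinarith
  · rw [sub_lt_iff_lt_add, div_lt_iff₀ h2]
    nlinarith

/-- Lower bounds near `θ n` from the mode. -/
lemma low_of_mode (w : ℕ → ℕ → ℝ) (θ : ℝ) (hθ : 0 < θ) (C c' : ℝ) (hC : 0 < C) (hc' : 0 < c')
    (hw0 : ∀ n g, 0 ≤ w n g)
    (hmode : ∀ η > 0, ∀ᶠ n : ℕ in atTop, ∃ g : ℕ, |(g : ℝ) - θ * n| ≤ η * n ∧
      1 / (4 * n) ≤ w n g ∧ ∀ h, w n h ≤ w n g)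
    (hlc : ∀ᶠ n : ℕ in atTop, ∀ g : ℕ, exp (-(c' * n)) ≤ w n (g + 1) →
      w n (g + 1) ^ 2 ≤ exp (C / n) * (w n g * w n (g + 2))) :
    ∀ β > 0, ∃ α > 0, ∀ᶠ n : ℕ in atTop, ∀ g : ℕ, |(g : ℝ) - θ * n| ≤ α * n →
      exp (-(β * n)) ≤ w n g := by
  intro β hβ
  set b := min β c' with hb
  have hb0 : 0 < b := lt_min hβ hc'
  have hbβ : b ≤ β := min_le_left _ _
  have hbc : b ≤ c' := min_le_right _ _
  set α := min (θ / 4) (min 1 (b / (18 * C))) with hα
  have hα0 : 0 < α := by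
    rw [hα]
    apply lt_min (by positivity) (lt_min one_pos (by positivity))
  have hα1 : α ≤ θ / 4 := min_le_left _ _
  have hα2 : α ≤ 1 := le_trans (min_le_right _ _) (min_le_left _ _)
  have hα3 : α ≤ b / (18 * C) := le_trans (min_le_right _ _) (min_le_right _ _)
  rw [le_div_iff₀ (by positivity)] at hα3
  refine ⟨α, hα0, ?_⟩
  have hbig : ∀ K : ℝ, ∀ᶠ n : ℕ in atTop, K ≤ (n : ℝ) := fun K =>
    (tendsto_natCast_atTop_atTop (R := ℝ)).eventually_ge_atTop K
  filter_upwards [hmode α hα0, hlc, eventually_log_lt 0 (b / 2) (by positivity), hbig (3 / α),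
    hbig 1] with n h1 h2 h3 h4 h5 g hg
  have hn : (0 : ℝ) < n := by linarith
  rw [div_le_iff₀ hα0] at h4
  obtain ⟨gm, hgm1, hgm2, hgm3⟩ := h1
  rw [abs_le] at hg hgm1
  obtain ⟨hgl, hgr⟩ := hg
  obtain ⟨hml, hmr⟩ := hgm1
  set J := ⌊2 * α * n⌋₊ with hJ
  have hJ1 : (J : ℝ) ≤ 2 * α * n := Nat.floor_le (by positivity)
  have hJ2 : (J + 1 : ℝ) ^ 2 ≤ 9 * α * n * n := by
    have h6 : (J + 1 : ℝ) ≤ 3 * α * n := by linarith
    have h7 : (J + 1 : ℝ) ^ 2 ≤ (3 * α * n) ^ 2 := pow_le_pow_left₀ (by positivity) h6 2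
    have h8 : (3 * α * n) ^ 2 = 9 * (α * α) * n * n := by ring
    have h9 : α * α ≤ α := by nlinarith
    have h10 : 9 * (α * α) * n * n ≤ 9 * α * n * n := by
      apply mul_le_mul_of_nonneg_right _ hn.le
      apply mul_le_mul_of_nonneg_right _ hn.le
      linarith
    linarith
  have he : (0 : ℝ) ≤ C / n := by positivity
  have heJ : C / n * (J + 1 : ℝ) ^ 2 ≤ b / 2 * n := by
    have h6 := mul_le_mul_of_nonneg_left hJ2 he
    have e1 : C / n * (9 * α * n * n) = 9 * (α * C) * n := by field_simp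
    rw [e1] at h6
    have h7 : 9 * (α * C) * n ≤ b / 2 * n := by
      apply mul_le_mul_of_nonneg_right _ hn.le
      linarith
    linarith
  have hv0 : exp (-(b / 2 * n)) ≤ w n gm := by
    refine le_trans ?_ hgm2
    have : 1 / (4 * (n : ℝ)) = exp (-log (4 * n)) := by
      rw [← log_inv, exp_log (by positivity), one_div]
    rw [this]
    apply exp_le_exp.mpr
    linarith
  have hv0pos : 0 < w n gm := lt_of_lt_of_le (exp_pos _) hv0
  have hE0 : exp (-(c' * n)) ≤ w n gm := by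
    refine le_trans ?_ hv0
    apply exp_le_exp.mpr
    have := mul_le_mul_of_nonneg_right hbc hn.le
    have h00 : 0 < b * n := by positivity
    linarith
  have hEJ : exp (-(c' * n)) ≤ exp (-(C / n * (J + 1 : ℝ) ^ 2)) * w n gm := by
    calc exp (-(c' * n)) ≤ exp (-(b / 2 * n)) * exp (-(b / 2 * n)) := by
          rw [← exp_add]
          apply exp_le_exp.mpr
          have := mul_le_mul_of_nonneg_right hbc hn.le
          linarith
      _ ≤ exp (-(C / n * (J + 1 : ℝ) ^ 2)) * w n gm := by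
          apply mul_le_mul _ hv0 (exp_pos _).le (exp_pos _).le
          apply exp_le_exp.mpr
          linarith
  have hJg : J + 2 < gm := by
    have : ((J + 2 : ℕ) : ℝ) < gm := by
      push_cast
      have := mul_le_mul_of_nonneg_right hα1 hn.le
      linarith
    exact_mod_cast this
  -- conclusion from a walk
  have concl : ∀ v : ℕ → ℝ, v 0 = w n gm → exp (-(C / n)) * v 0 ≤ v 1 →
      (∀ j, j + 2 ≤ J + 1 → exp (-(c' * n)) ≤ v (j + 1) →
        v (j + 1) ^ 2 ≤ exp (C / n) * (v j * v (j + 2))) →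
      ∀ j ≤ J, exp (-(β * n)) ≤ v j := by
    intro v hv hv1 hvlc j hj
    have h6 := (walk_mode v J (C / n) (exp (-(c' * n))) he (by rw [hv]; exact hv0pos)
      hv1 hvlc (by rw [hv]; exact hEJ) j hj).1
    refine le_trans ?_ h6
    rw [hv]
    calc exp (-(β * n)) ≤ exp (-(b / 2 * n)) * exp (-(b / 2 * n)) := by
          rw [← exp_add]
          apply exp_le_exp.mpr
          have := mul_le_mul_of_nonneg_right hbβ hn.le
          linarith
      _ ≤ exp (-(C / n * (j : ℝ) ^ 2)) * w n gm := by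
          apply mul_le_mul _ hv0 (exp_pos _).le (exp_pos _).le
          apply exp_le_exp.mpr
          have hj' : (j : ℝ) ≤ J + 1 := by exact_mod_cast (by omega : j ≤ J + 1)
          have h7 : (j : ℝ) ^ 2 ≤ (J + 1 : ℝ) ^ 2 := pow_le_pow_left₀ (Nat.cast_nonneg j) hj' 2
          have h8 := mul_le_mul_of_nonneg_left h7 he
          linarith
  have hstep : ∀ x y, w n gm ^ 2 ≤ exp (C / n) * (x * y) → 0 ≤ y → x ≤ w n gm →
      exp (-(C / n)) * w n gm ≤ y := by
    intro x y hxy hy hx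
    have h6 : w n gm ^ 2 ≤ exp (C / n) * (w n gm * y) := by
      refine le_trans hxy ?_
      apply mul_le_mul_of_nonneg_left _ (exp_pos _).le
      exact mul_le_mul_of_nonneg_right hx hy
    have h7 : w n gm * w n gm ≤ (exp (C / n) * y) * w n gm := by nlinarith
    have h8 := le_of_mul_le_mul_right h7 hv0pos
    rw [exp_neg, inv_mul_le_iff₀ (exp_pos _)]
    exact h8
  have hc1 := h2 (gm - 1) (by rw [show gm - 1 + 1 = gm by omega]; exact hE0)
  rw [show gm - 1 + 1 = gm by omega, show gm - 1 + 2 = gm + 1 by omega] at hc1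
  rcases le_total gm g with hle | hle
  · obtain ⟨j, rfl⟩ := Nat.exists_eq_add_of_le hle
    have hj : j ≤ J := by
      apply Nat.le_floor
      push_cast at hgr
      linarith
    refine concl (fun j => w n (gm + j)) rfl ?_ ?_ j hj
    · exact hstep _ _ hc1 (hw0 _ _) (hgm3 _)
    · intro i _ hi
      exact h2 (gm + i) hi
  · obtain ⟨j, hj0⟩ := Nat.exists_eq_add_of_le hle
    have hj : j ≤ J := by
      apply Nat.le_floor
      have : (gm : ℝ) = g + j := by exact_mod_cast hj0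
      linarith
    have hgj : g = gm - j := by omega
    rw [hgj]
    refine concl (fun j => w n (gm - j)) rfl ?_ ?_ j hj
    · show exp (-(C / n)) * w n gm ≤ w n (gm - 1)
      rw [mul_comm (w n (gm - 1))] at hc1
      exact hstep _ _ hc1 (hw0 _ _) (hgm3 _)
    · intro i hi hi2
      have e1 : gm - (i + 1) = gm - (i + 2) + 1 := by omega
      have e2 : gm - i = gm - (i + 2) + 2 := by omega
      show w n (gm - (i + 1)) ^ 2 ≤ exp (C / n) * (w n (gm - i) * w n (gm - (i + 2)))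
      rw [e1, e2, mul_comm (w n (gm - (i + 2) + 2))]
      apply h2
      rw [← e1]
      exact hi2

/-! ### Application to the quadrangulation weights -/

lemma Qp_coeff_zero : ∀ n g : ℕ, n < g → (Qp n).coeff g = 0 := by
  intro n
  induction n using Nat.strong_induction_on with
  | _ n ih =>
    intro g hg
    match n, ih, hg with
    | 0, _, hg => 
      rw [Qp, Polynomial.coeff_one, if_neg (by omega)]
    | 1, _, hg =>
      rw [Qp_one_eq, Polynomial.coeff_C, if_neg (by omega)]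
    | m + 2, ih, hg =>
      rw [Qp, Polynomial.coeff_C_mul, Polynomial.coeff_add, Polynomial.coeff_add,
        Polynomial.coeff_C_mul, mul_assoc (Polynomial.C _) Polynomial.X, Polynomial.coeff_C_mul,
        three_eq_C, Polynomial.coeff_C_mul, Polynomial.finsetSum_coeff, ih (m + 1) (by omega) g (by omega)]
      obtain ⟨g', rfl⟩ : ∃ g', g = g' + 1 := ⟨g - 1, by omega⟩
      rw [Polynomial.coeff_X_mul, ih m (by omega) g' (by omega)]
      have hs : ∑ i : Fin (m + 1), ((Polynomial.C ((2 * ((i : ℕ) : ℝ) + 1)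
          * (2 * ((m - i : ℕ) : ℝ) + 1)) * Qp i * Qp (m - i)).coeff (g' + 1)) = 0 := by
        apply Finset.sum_eq_zero
        intro i _
        rw [mul_assoc, Polynomial.coeff_C_mul, Polynomial.coeff_mul]
        rw [Finset.sum_eq_zero, mul_zero]
        intro p hp
        have hp' := Finset.HasAntidiagonal.mem_antidiagonal.mp hp
        have hi := i.2
        by_cases h1 : (i : ℕ) < p.1
        · rw [ih i (by omega) p.1 h1, zero_mul]
        · rw [ih (m - i) (by omega) p.2 (by omega), mul_zero]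
      rw [hs]
      ring

lemma sum_wN (N n : ℕ) : ∑ g ∈ Finset.range (n + 1), wN N n g = 1 := by
  unfold wN
  rw [← Finset.sum_div]
  have h : ∑ i ∈ Finset.range (n + 1), (Qp n).coeff i * (1 / (N : ℝ) ^ 2) ^ i = yN N n := by
    unfold yN
    rw [Polynomial.eval_eq_sum_range' (n := n + 1)]
    rw [Nat.lt_succ_iff, Polynomial.natDegree_le_iff_coeff_eq_zero]
    intro g hg
    exact Qp_coeff_zero n g hg
  rw [h]
  exact div_self (yN_pos N n).ne'

lemma wN_nonneg (N n g : ℕ) : 0 ≤ wN N n g :=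
  div_nonneg (mul_nonneg (Qp_coeff_nonneg n g) (by positivity)) (yN_pos N n).le

lemma wN_zero_of_lt (N n g : ℕ) (h : n < g) : wN N n g = 0 := by
  unfold wN
  rw [Qp_coeff_zero n g h]
  simp

lemma wN_le_one (N n g : ℕ) : wN N n g ≤ 1 := by
  by_cases h : g ≤ n
  · rw [← sum_wN N n]
    exact Finset.single_le_sum (f := fun g => wN N n g) (fun i _ => wN_nonneg N n i)
      (Finset.mem_range.mpr (by omega))
  · rw [wN_zero_of_lt N n g (by omega)]
    exact zero_le_one

lemma exists_mode (N n : ℕ) : ∃ g, 1 / ((n : ℝ) + 1) ≤ wN N n g ∧ ∀ h, wN N n h ≤ wN N n g := by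
  obtain ⟨g, hg, hmax⟩ := Finset.exists_max_image (Finset.range (n + 1)) (fun g => wN N n g)
    ⟨0, Finset.mem_range.mpr (by omega)⟩
  refine ⟨g, ?_, ?_⟩
  · have h1 : (1 : ℝ) ≤ ∑ h ∈ Finset.range (n + 1), wN N n g := by
      rw [← sum_wN N n]
      exact Finset.sum_le_sum hmax
    rw [Finset.sum_const, Finset.card_range, nsmul_eq_mul] at h1
    rw [div_le_iff₀ (by positivity)]
    push_cast at h1
    linarith
  · intro h
    by_cases hh : h ≤ n
    · exact hmax h (Finset.mem_range.mpr (by omega))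
    · rw [wN_zero_of_lt N n h (by omega)]
      exact wN_nonneg N n g

/-- Part B5b: the final statement about the polynomials `Qp`. -/
theorem partB5b (hALC : ALC) (θ τ : ℝ) (hθ : 0 < θ) (hτ : 0 < τ) (hM : ModeConc θ τ) (gs : ℕ → ℕ)
    (hgs : Tendsto (fun n => (gs n : ℝ) / n) atTop (𝓝 θ)) :
    Tendsto (fun n : ℕ => (Qp n).coeff (gs n) / ((n : ℝ) ^ 2 * (Qp n).coeff (gs n - 1))) atTop
      (𝓝 (1 / τ ^ 2)) := by
  set N : ℕ → ℕ := fun n => ⌈(1 / τ) * (n : ℝ)⌉₊ with hN
  have hNn : Tendsto (fun n : ℕ => (N n : ℝ) / n) atTop (𝓝 (1 / τ)) :=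
    (tendsto_nat_ceil_mul_div_atTop (a := 1 / τ) (by positivity)).comp tendsto_natCast_atTop_atTop
  have hnN : Tendsto (fun n : ℕ => (n : ℝ) / (N n : ℝ)) atTop (𝓝 τ) := by
    have := hNn.inv₀ (by positivity)
    simpa using this
  have hNinf : Tendsto N atTop atTop := by
    have h1 : Tendsto (fun n : ℕ => (N n : ℝ)) atTop atTop := by
      apply tendsto_atTop_mono (f := fun n : ℕ => (1 / τ) * (n : ℝ))
      · intro n
        exact Nat.le_ceil _
      · exact tendsto_natCast_atTop_atTop.const_mul_atTop (by positivity)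
    exact tendsto_natCast_atTop_iff.mp h1
  obtain ⟨K, c, hK, hc, hALC'⟩ := hALC (τ / 2) (2 * τ) (by positivity) (by linarith)
  have hbig : ∀ K : ℝ, ∀ᶠ n : ℕ in atTop, K ≤ (n : ℝ) := fun K =>
    (tendsto_natCast_atTop_atTop (R := ℝ)).eventually_ge_atTop K
  have hlc : ∀ᶠ n : ℕ in atTop, ∀ g : ℕ, exp (-(c * n)) ≤ wN (N n) n (g + 1) →
      wN (N n) n (g + 1) ^ 2 ≤ exp (K / n) * (wN (N n) n g * wN (N n) n (g + 2)) := by
    filter_upwards [hNinf.eventually hALC', hnN.eventually_lt_const (by linarith : τ < 2 * τ),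
      hnN.eventually_const_lt (by linarith : τ / 2 < τ), hNinf.eventually_gt_atTop 0,
      eventually_gt_atTop 0] with n h1 h2 h3 h4 h5 g hg
    have hN0 : (0 : ℝ) < N n := by exact_mod_cast h4
    rw [div_lt_iff₀ hN0] at h2
    rw [lt_div_iff₀ hN0] at h3
    refine le_trans (h1 n h3.le h2.le g ?_) ?_
    · rw [neg_mul]; exact hg
    · apply mul_le_mul_of_nonneg_right _ (mul_nonneg (wN_nonneg _ _ _) (wN_nonneg _ _ _))
      have := Real.add_one_le_exp (K / n)
      linarith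
  have hmode : ∀ η > 0, ∀ᶠ n : ℕ in atTop, ∃ g : ℕ, |(g : ℝ) - θ * n| ≤ η * n ∧
      1 / (4 * (n : ℝ)) ≤ wN (N n) n g ∧ ∀ h, wN (N n) n h ≤ wN (N n) n g := by
    intro η hη
    obtain ⟨c1, hc1, hc2⟩ := hM N hnN η hη
    filter_upwards [hc2, eventually_log_lt 0 (c1 / 2) (by positivity), hbig 1] with n h1 h2 h3
    have hn : (0 : ℝ) < n := by linarith
    obtain ⟨g, hg1, hg2⟩ := exists_mode (N n) n
    have hg3 : 1 / (4 * (n : ℝ)) ≤ wN (N n) n g := by
      refine le_trans ?_ hg1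
      apply one_div_le_one_div_of_le (by positivity)
      linarith
    refine ⟨g, ?_, hg3, hg2⟩
    by_contra hcon
    push Not at hcon
    have h4 := h1 g hcon.le
    have h5 : exp (-log (4 * n)) ≤ exp (-c1 * n) := by
      rw [← log_inv, exp_log (by positivity), inv_eq_one_div]
      exact le_trans hg3 h4
    rw [exp_le_exp] at h5
    have : 0 < c1 * n := by positivity
    linarith
  have hlow := low_of_mode (fun n g => wN (N n) n g) θ hθ K c hK hc (fun n g => wN_nonneg _ _ _)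
    hmode hlc
  have hfin := final_abs (fun n g => wN (N n) n g) θ hθ gs hgs (fun n g => wN_le_one _ _ _) K c hK
    hc hlow hlc
  have hsq : Tendsto (fun n : ℕ => ((N n : ℝ) / n) ^ 2) atTop (𝓝 ((1 / τ) ^ 2)) := hNn.pow 2
  have htot := hfin.mul hsq
  rw [one_mul, div_pow, one_pow] at htot
  apply htot.congr'
  obtain ⟨α, hα, hα2⟩ := hlow 1 one_pos
  have hgs' : ∀ᶠ n : ℕ in atTop, 0 < (gs n : ℝ) / n := hgs.eventually_const_lt hθ
  filter_upwards [hNinf.eventually_gt_atTop 0, eventually_gt_atTop 0, hgs'] with n h1 h2 h3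
  have hn : (0 : ℝ) < n := by exact_mod_cast h2
  have hN0 : (0 : ℝ) < N n := by exact_mod_cast h1
  have hg : 0 < gs n := by
    rcases Nat.eq_zero_or_pos (gs n) with h | h
    · rw [h] at h3; simp at h3
    · exact h
  obtain ⟨g, hg'⟩ : ∃ g, gs n = g + 1 := ⟨gs n - 1, by omega⟩
  have hy := (yN_pos (N n) n).ne'
  show wN (N n) n (gs n) / wN (N n) n (gs n - 1) * ((N n : ℝ) / n) ^ 2
    = (Qp n).coeff (gs n) / ((n : ℝ) ^ 2 * (Qp n).coeff (gs n - 1))
  rw [hg', Nat.add_sub_cancel]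
  unfold wN
  by_cases h0 : (Qp n).coeff g = 0
  · rw [h0]; simp
  · rw [pow_succ]
    field_simp

end Pool.Agent.H82.Quad
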