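import Mathlib
import Pool.Agent.H63.Quad.BPlan
import Pool.Agent.H48.Quad.B1

/-!
# Project QUAD: `SmallIdx`, `ED`, `LB` from `LimA`
-/

set_option autoImplicit false

namespace Pool.Agent.H82.Quad

open Filter Topology Pool.Agent.H63.Quad Pool.Agent.H48.Quad

lemma tendsto_floor (hL : LimA AA0) (l : ℝ) (hl : 0 < l) :
    Tendsto (fun N : ℕ => aN N ⌊l * N⌋₊) atTop (𝓝 (AA0 l)) := by
  apply hL l hl (fun N => ⌊l * N⌋₊) (fun N => N) tendsto_id
  exact (tendsto_nat_floor_mul_div_atTop hl.le).comp tendsto_natCast_atTop_atTop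

lemma tendsto_ceil (hL : LimA AA0) (l : ℝ) (hl : 0 < l) :
    Tendsto (fun N : ℕ => aN N ⌈l * N⌉₊) atTop (𝓝 (AA0 l)) := by
  apply hL l hl (fun N => ⌈l * N⌉₊) (fun N => N) tendsto_id
  exact (tendsto_nat_ceil_mul_div_atTop hl.le).comp tendsto_natCast_atTop_atTop

theorem lB (hL : LimA AA0) : LB := by
  intro t ht
  refine ⟨AA0 t / 2, by have := AA0_pos t; linarith, ?_⟩
  have h := (tendsto_floor hL t ht).eventually_const_lt
    (by have := AA0_pos t; linarith : AA0 t / 2 < AA0 t)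
  filter_upwards [h, eventually_ge_atTop 1] with N hN h1 k hk
  refine le_trans hN.le (aN_antitone N h1 ?_)
  exact Nat.le_floor hk

theorem smallIdx (hL : LimA AA0) : SmallIdx := by
  intro c hc
  have h1 : Tendsto AA0 (𝓝[>] 0) (𝓝 (AA0 0)) :=
    continuous_AA0.continuousAt.mono_left nhdsWithin_le_nhds
  rw [AA0_zero] at h1
  have h2 : ∀ᶠ l in 𝓝[>] (0 : ℝ), c < AA0 l := h1.eventually_const_lt hc
  have h3 : ∀ᶠ l in 𝓝[>] (0 : ℝ), 0 < l := eventually_mem_nhdsWithin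
  obtain ⟨l, h4, h5⟩ := (h2.and h3).exists
  refine ⟨l, h5, ?_⟩
  filter_upwards [(tendsto_floor hL l h5).eventually_const_lt h4, eventually_ge_atTop 1]
    with N hN h1 k hk
  exact lt_of_lt_of_le hN (aN_antitone N h1 (Nat.le_floor hk))

theorem eD (hL : LimA AA0) : ED := by
  intro l0 hl0
  have hlt : AA0 l0 < AA0 (l0 / 2) := AA0_strictAnti (by positivity) (by linarith)
  have hp := AA0_pos l0
  have hp2 := AA0_pos (l0 / 2)
  have hr1 : AA0 l0 / AA0 (l0 / 2) < 1 := by rwa [div_lt_one hp2]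
  have hr0 : 0 < AA0 l0 / AA0 (l0 / 2) := by positivity
  set ρ := (1 + AA0 l0 / AA0 (l0 / 2)) / 2 with hρ
  refine ⟨ρ, by rw [hρ]; positivity, by rw [hρ]; linarith, l0 / 2, by positivity, ?_⟩
  have ht : Tendsto (fun N : ℕ => aN N ⌈l0 * N⌉₊ / aN N ⌊(l0 / 2) * N⌋₊) atTop
      (𝓝 (AA0 l0 / AA0 (l0 / 2))) :=
    (tendsto_ceil hL l0 hl0).div (tendsto_floor hL (l0 / 2) (by positivity)) hp2.ne'
  filter_upwards [ht.eventually_lt_const (by rw [hρ]; linarith : AA0 l0 / AA0 (l0 / 2) < ρ),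
    eventually_ge_atTop 1] with N hN h1 k j hk hj
  have ha := aN_pos N ⌊(l0 / 2) * N⌋₊
  rw [div_lt_iff₀ ha] at hN
  have h2 : aN N k ≤ aN N ⌈l0 * N⌉₊ := aN_antitone N h1 (Nat.ceil_le.mpr hk)
  have h3 : aN N ⌊(l0 / 2) * N⌋₊ ≤ aN N j := aN_antitone N h1 (Nat.le_floor hj)
  have hρ0 : 0 ≤ ρ := by rw [hρ]; positivity
  have h4 := mul_le_mul_of_nonneg_left h3 hρ0
  linarith

end Pool.Agent.H82.Quad
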