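import Mathlib

/-!
# Project QUAD, part A2: string equation, Volterra lattice, Carrell and Chapuy recurrence

`IsStr r` : the family `r k` of power series over the rationals solves the string equation
`r k = ceil (k/2) + X * r k * (r (k+1) + r k + r (k-1))`, `r 0 = 0`.
-/

namespace Pool.Agent.H82.Quad

open PowerSeries

/-- The Euler derivation `X d/dX` on power series over the rationals. -/
noncomputable def D : Derivation ℚ ℚ⟦X⟧ ℚ⟦X⟧ := (X : ℚ⟦X⟧) • (PowerSeries.derivative ℚ)

lemma coeff_D (f : ℚ⟦X⟧) (n : ℕ) : coeff n (D f) = n * coeff n f := by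
  have h : D f = X * PowerSeries.derivative ℚ f := rfl
  rw [h]
  cases n with
  | zero => simp
  | succ n =>
    rw [PowerSeries.coeff_succ_X_mul, PowerSeries.coeff_derivative]
    push_cast
    ring

lemma D_X : D (X : ℚ⟦X⟧) = X := by
  have h : D (X : ℚ⟦X⟧) = X * PowerSeries.derivative ℚ X := rfl
  rw [h]
  simp

lemma D_mul (f g : ℚ⟦X⟧) : D (f * g) = f * D g + g * D f := by
  rw [Derivation.leibniz, smul_eq_mul, smul_eq_mul]

lemma D_natCast (n : ℕ) : D (n : ℚ⟦X⟧) = 0 := by
  exact Derivation.map_natCast D n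

/-- Solutions of the string equation. -/
structure IsStr (r : ℕ → ℚ⟦X⟧) : Prop where
  zero : r 0 = 0
  str : ∀ k, r (k + 1) = (((k + 2) / 2 : ℕ) : ℚ⟦X⟧)
    + X * r (k + 1) * (r (k + 2) + r (k + 1) + r k)

/-- Uniqueness principle for linear systems. -/
lemma eq_zero_of_contract {ι : Type*} (w : ι → ℚ⟦X⟧)
    (h : ∀ m, (∀ i, ∀ n < m, coeff n (w i) = 0) → ∀ i, coeff m (w i) = 0) : ∀ i, w i = 0 := by
  have key : ∀ m, ∀ i, coeff m (w i) = 0 := by
    intro m
    induction m using Nat.strong_induction_on with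
    | _ m ih =>
      exact h m (fun i n hn => ih n hn i)
  intro i
  ext n
  simpa using key n i

lemma coeff_X_mul_eq_zero (f g : ℚ⟦X⟧) (m : ℕ) (hg : ∀ n < m, coeff n g = 0) :
    coeff m (X * f * g) = 0 := by
  rw [mul_assoc]
  cases m with
  | zero => simp
  | succ m =>
    rw [PowerSeries.coeff_succ_X_mul, PowerSeries.coeff_mul]
    apply Finset.sum_eq_zero
    intro p hp
    have hp' : p.1 + p.2 = m := Finset.HasAntidiagonal.mem_antidiagonal.mp hp
    rw [hg p.2 (by omega), mul_zero]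

/-- injectivity of `2 D + 1`. -/
lemma eq_of_two_D (f g : ℚ⟦X⟧) (h : 2 * D f + f = 2 * D g + g) : f = g := by
  ext n
  have h1 := congrArg (coeff n) h
  rw [map_add, map_add] at h1
  have h2 : ∀ f : ℚ⟦X⟧, coeff n (2 * f) = 2 * coeff n f := by
    intro f
    have : (2 : ℚ⟦X⟧) = PowerSeries.C (2 : ℚ) := (map_ofNat PowerSeries.C 2).symm
    rw [this, PowerSeries.coeff_C_mul]
  rw [h2, h2, coeff_D, coeff_D] at h1
  have h3 : (2 * (n : ℚ) + 1) * (coeff n f - coeff n g) = 0 := by linear_combination h1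
  rcases mul_eq_zero.mp h3 with h4 | h4
  · have : (0 : ℚ) < 2 * (n : ℚ) + 1 := by positivity
    exact absurd h4 this.ne'
  · linarith

lemma X_mul_cancel {f g : ℚ⟦X⟧} (h : X * f = X * g) : f = g := by
  have h0 : (X : ℚ⟦X⟧) ≠ 0 := PowerSeries.X_ne_zero
  exact mul_left_cancel₀ h0 h

namespace IsStr

variable {r : ℕ → ℚ⟦X⟧} (H : IsStr r)
include H

/-- Volterra lattice equation (`D = X d/dX`). -/
theorem volterra (k : ℕ) : 2 * D (r (k + 1)) + r (k + 1) = r (k + 1) * (r (k + 2) - r k) := by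
  set v : ℕ → ℚ⟦X⟧ := fun k => r k * (r (k + 1) - r (k - 1)) with hv
  set w : ℕ → ℚ⟦X⟧ := fun k => 2 * D (r k) + r k - v k with hw
  have hv0 : v 0 = 0 := by simp [hv, H.zero]
  have hv1 : ∀ k, v (k + 1) = r (k + 1) * (r (k + 2) - r k) := by
    intro k; simp [hv]
  have hw0 : w 0 = 0 := by
    simp [hw, hv0, H.zero]
  have hstr := H.str
  -- linear system for v
  have hvs : ∀ k, v (k + 1) * (1 - X * (r (k + 2) + r (k + 1) + r k))
      = r (k + 1) + X * r (k + 1) * (v (k + 2) + v (k + 1) + v k) := by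
    intro k
    cases k with
    | zero =>
      have h2 := hstr 1
      have h0 := H.zero
      have e : (((1 + 2) / 2 : ℕ) : ℚ⟦X⟧) = 1 := by norm_num
      rw [e] at h2
      rw [hv0, hv1, hv1]
      norm_num at h2 ⊢
      rw [h0]
      linear_combination (r 1) * h2
    | succ k =>
      have h1 := hstr k
      have h3 := hstr (k + 2)
      have hc : (((k + 2 + 2) / 2 : ℕ) : ℚ⟦X⟧) = (((k + 2) / 2 : ℕ) : ℚ⟦X⟧) + 1 := by
        have : (k + 2 + 2) / 2 = (k + 2) / 2 + 1 := by omega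
        rw [this]
        push_cast
        ring
      rw [hc] at h3
      have e2 := hv1 (k + 2)
      rw [hv1 k, hv1 (k + 1), show k + 1 + 2 = k + 2 + 1 from rfl, e2]
      linear_combination r (k + 2) * h3 - r (k + 2) * h1
  -- linear system for (2D+1) r
  have hrs : ∀ k, (2 * D (r (k + 1)) + r (k + 1)) * (1 - X * (r (k + 2) + r (k + 1) + r k))
      = r (k + 1) + X * r (k + 1) * ((2 * D (r (k + 2)) + r (k + 2))
        + (2 * D (r (k + 1)) + r (k + 1)) + (2 * D (r k) + r k)) := by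
    intro k
    have h1 := hstr k
    have h2 := congrArg D h1
    rw [map_add, D_natCast, D_mul, D_mul, D_X, map_add, map_add] at h2
    linear_combination 2 * h2
  -- difference
  have hws : ∀ k, w (k + 1) = X * (r (k + 2) + r (k + 1) + r k) * w (k + 1)
      + X * r (k + 1) * (w (k + 2) + w (k + 1) + w k) := by
    intro k
    have h1 := hvs k
    have h2 := hrs k
    simp only [hw]
    linear_combination h2 - h1
  have hz : ∀ k, w k = 0 := by
    apply eq_zero_of_contract
    intro m hm i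
    cases i with
    | zero => rw [hw0]; simp
    | succ i =>
      rw [hws i, map_add, coeff_X_mul_eq_zero _ _ m (fun n hn => hm (i + 1) n hn),
        coeff_X_mul_eq_zero _ _ m, add_zero]
      intro n hn
      rw [map_add, map_add, hm _ n hn, hm _ n hn, hm _ n hn]
      ring
  have := hz (k + 1)
  simp only [hw, hv1] at this
  linear_combination this

/-- `M N = sum of r k for k < 2 N`. -/
theorem D_sum (N : ℕ) (hN : 1 ≤ N) :
    2 * D (∑ k ∈ Finset.range (2 * N), r k) + ∑ k ∈ Finset.range (2 * N), r k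
      = r (2 * N - 1) * r (2 * N) := by
  have key : ∀ n, 2 * D (∑ k ∈ Finset.range (n + 1), r k) + ∑ k ∈ Finset.range (n + 1), r k
      = r n * r (n + 1) := by
    intro n
    induction n with
    | zero => simp [H.zero]
    | succ n ih =>
      rw [Finset.sum_range_succ _ (n + 1), map_add]
      have := H.volterra n
      linear_combination ih + this
  have := key (2 * N - 1)
  rwa [show 2 * N - 1 + 1 = 2 * N by omega] at this

/-- All the relations at the pair of indices `2N-1, 2N`. -/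
lemma pair (N : ℕ) (hN : 1 ≤ N) : ∃ a' b' : ℚ⟦X⟧,
    r (2 * N - 1) = (N : ℚ⟦X⟧) + X * r (2 * N - 1) * (r (2 * N) + r (2 * N - 1) + a') ∧
    r (2 * N) = (N : ℚ⟦X⟧) + X * r (2 * N) * (b' + r (2 * N) + r (2 * N - 1)) ∧
    2 * D (r (2 * N - 1)) + r (2 * N - 1) = r (2 * N - 1) * (r (2 * N) - a') ∧
    2 * D (r (2 * N)) + r (2 * N) = r (2 * N) * (b' - r (2 * N - 1)) := by
  obtain ⟨n, rfl⟩ : ∃ n, N = n + 1 := ⟨N - 1, by omega⟩
  refine ⟨r (2 * n), r (2 * n + 3), ?_, ?_, ?_, ?_⟩
  · have s1 := H.str (2 * n)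
    rw [show (2 * n + 2) / 2 = n + 1 by omega] at s1
    exact s1
  · have s2 := H.str (2 * n + 1)
    rw [show (2 * n + 1 + 2) / 2 = n + 1 by omega] at s2
    exact s2
  · exact H.volterra (2 * n)
  · exact H.volterra (2 * n + 1)

/-- The flow of `u = X a b`. -/
theorem D_u (N : ℕ) (hN : 1 ≤ N) :
    2 * D (X * r (2 * N - 1) * r (2 * N))
      = (r (2 * N) - r (2 * N - 1)) * (X * r (2 * N - 1) * r (2 * N) + (N : ℚ⟦X⟧)) := by
  obtain ⟨a', b', s1, s2, v1, v2⟩ := H.pair N hN
  rw [D_mul, D_mul, D_X]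
  linear_combination (X * r (2 * N)) * v1 + (X * r (2 * N - 1)) * v2
    + r (2 * N) * s1 - r (2 * N - 1) * s2

/-- `M = (u + N)(a + b) - a b`. -/
theorem M_eq (N : ℕ) (hN : 1 ≤ N) :
    ∑ k ∈ Finset.range (2 * N), r k
      = (X * r (2 * N - 1) * r (2 * N) + (N : ℚ⟦X⟧)) * (r (2 * N - 1) + r (2 * N))
        - r (2 * N - 1) * r (2 * N) := by
  apply eq_of_two_D
  rw [H.D_sum N hN]
  apply X_mul_cancel
  have hDu := H.D_u N hN
  obtain ⟨a', b', s1, s2, v1, v2⟩ := H.pair N hN
  have hab : 2 * D (X * r (2 * N - 1) * r (2 * N)) = 2 * (X * r (2 * N - 1) * r (2 * N))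
      + X * (2 * D (r (2 * N - 1) * r (2 * N))) := by
    rw [mul_assoc X, D_mul, D_X]
    ring
  rw [map_sub, D_mul, map_add, map_add, D_natCast, add_zero]
  rw [hDu] at hab
  generalize D (X * r (2 * N - 1) * r (2 * N)) = du at *
  generalize D (r (2 * N - 1) * r (2 * N)) = dp at *
  generalize D (r (2 * N - 1)) = d1 at *
  generalize D (r (2 * N)) = d2 at *
  generalize r (2 * N - 1) = a at *
  generalize r (2 * N) = b at *
  generalize (N : ℚ⟦X⟧) = c at *
  linear_combination (-X * (X * a * b + c)) * v1 + (-X * (X * a * b + c)) * v2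
    + (-X * (a + b)) * hDu - hab + (X * a * b + c) * (s2 - s1)

/-- Carrell and Chapuy, generating function form. -/
theorem cc_gen (N : ℕ) (hN : 1 ≤ N) (M u : ℚ⟦X⟧) (hM : M = ∑ k ∈ Finset.range (2 * N), r k)
    (hu : u = X * r (2 * N - 1) * r (2 * N)) :
    D M + M = (N : ℚ⟦X⟧) ^ 2 + 4 * (N : ℚ⟦X⟧) * u + 3 * u ^ 2 + X * D (2 * D u + u) := by
  have hDu := H.D_u N hN
  have hDM := H.D_sum N hN
  have hMe := H.M_eq N hN
  obtain ⟨a', b', s1, s2, v1, v2⟩ := H.pair N hN
  rw [← hM] at hDM hMe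
  rw [← hu] at hDu hMe
  have h2 : D (2 * D u + u) = 2 * D (D u) + D u := by
    rw [map_add, D_mul]
    have : D (2 : ℚ⟦X⟧) = 0 := by
      have := D_natCast 2
      simpa using this
    rw [this]
    ring
  have h3 : 2 * D (D u) = (D (r (2 * N)) - D (r (2 * N - 1))) * (u + (N : ℚ⟦X⟧))
      + (r (2 * N) - r (2 * N - 1)) * D u := by
    have h4 := congrArg D hDu
    rw [D_mul, D_mul, map_add, map_sub, D_natCast] at h4
    have : D (2 : ℚ⟦X⟧) = 0 := by
      have := D_natCast 2
      simpa using this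
    rw [this] at h4
    linear_combination h4
  rw [h2, h3]
  generalize D (r (2 * N - 1)) = d1 at *
  generalize D (r (2 * N)) = d2 at *
  generalize r (2 * N - 1) = a at *
  generalize r (2 * N) = b at *
  generalize (N : ℚ⟦X⟧) = c at *
  generalize D u = du at *
  generalize D M = dM at *
  have h2c : ∀ f g : ℚ⟦X⟧, 2 * f = 2 * g → f = g := by
    intro f g h
    have h0 : (2 : ℚ⟦X⟧) ≠ 0 := by
      have : (2 : ℚ⟦X⟧) = PowerSeries.C (2 : ℚ) := (map_ofNat PowerSeries.C 2).symm
      rw [this]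
      intro h
      have := congrArg PowerSeries.constantCoeff h
      norm_num at this
    exact mul_left_cancel₀ h0 h
  apply h2c
  linear_combination hDM + hMe - X * (u + c) * v2 + X * (u + c) * v1 - (X * (b - a) + X) * hDu
    + (u + c) * (s1 + s2) - 6 * (u + c) * hu

/-- Carrell and Chapuy recurrence, numerical form, for the coefficients `P n` of
`M = sum of r k, k < 2 N`. -/
theorem cc_coeff (N : ℕ) (hN : 1 ≤ N) (P : ℕ → ℚ)
    (hP : ∀ n, P n = coeff n (∑ k ∈ Finset.range (2 * N), r k)) :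
    P 0 = (N : ℚ) ^ 2 ∧ P 1 = 2 * (N : ℚ) ^ 3 ∧
    ∀ n : ℕ, ((n : ℚ) + 3) * P (n + 2) = 4 * N * (2 * n + 3) * P (n + 1)
      + (n + 1) * (2 * n + 1) * (2 * n + 3) * P n
      + 3 * ∑ p ∈ Finset.HasAntidiagonal.antidiagonal n, (2 * (p.1 : ℚ) + 1) * P p.1 * ((2 * (p.2 : ℚ) + 1) * P p.2)
      := by
  set M := ∑ k ∈ Finset.range (2 * N), r k with hM
  set u := X * r (2 * N - 1) * r (2 * N) with hu
  have hg := H.cc_gen N hN M u hM hu
  have hDM := H.D_sum N hN
  rw [← hM] at hDM
  have hu2 : u = X * (2 * D M + M) := by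
    rw [hDM, hu]; ring
  have h2 : ∀ (n : ℕ) (f : ℚ⟦X⟧), coeff n (2 * f) = 2 * coeff n f := by
    intro n f
    have : (2 : ℚ⟦X⟧) = PowerSeries.C (2 : ℚ) := (map_ofNat PowerSeries.C 2).symm
    rw [this, PowerSeries.coeff_C_mul]
  have h3 : ∀ (n : ℕ) (f : ℚ⟦X⟧), coeff n (3 * f) = 3 * coeff n f := by
    intro n f
    have : (3 : ℚ⟦X⟧) = PowerSeries.C (3 : ℚ) := (map_ofNat PowerSeries.C 3).symm
    rw [this, PowerSeries.coeff_C_mul]
  have h4 : ∀ (n : ℕ) (f : ℚ⟦X⟧), coeff n (4 * (N : ℚ⟦X⟧) * f) = 4 * N * coeff n f := by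
    intro n f
    have : (4 * (N : ℚ⟦X⟧)) = PowerSeries.C (4 * (N : ℚ)) := by
      rw [map_mul, map_natCast, map_ofNat]
    rw [this, PowerSeries.coeff_C_mul]
  have hN2 : (N : ℚ⟦X⟧) ^ 2 = PowerSeries.C ((N : ℚ) ^ 2) := by simp
  -- coefficients of u
  have hu0 : coeff 0 u = 0 := by rw [hu2]; simp
  have hus : ∀ n, coeff (n + 1) u = (2 * n + 1) * P n := by
    intro n
    rw [hu2, PowerSeries.coeff_succ_X_mul, map_add, h2, coeff_D, ← hP]
    ring
  have hu2sq : ∀ n, coeff (n + 2) (u ^ 2) = ∑ p ∈ Finset.HasAntidiagonal.antidiagonal n,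
      (2 * (p.1 : ℚ) + 1) * P p.1 * ((2 * (p.2 : ℚ) + 1) * P p.2) := by
    intro n
    have : u ^ 2 = X * (X * ((2 * D M + M) * (2 * D M + M))) := by rw [hu2]; ring
    rw [this, PowerSeries.coeff_succ_X_mul, PowerSeries.coeff_succ_X_mul, PowerSeries.coeff_mul]
    apply Finset.sum_congr rfl
    intro p _
    rw [map_add, map_add, h2, h2, coeff_D, coeff_D, ← hP, ← hP]
    ring
  have hPs : ∀ n, coeff n M = P n := fun n => (hP n).symm
  refine ⟨?_, ?_, ?_⟩
  · have := congrArg (coeff 0) hg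
    rw [map_add, coeff_D, hPs, map_add, map_add, map_add, h4, hu0, h3, hN2,
      PowerSeries.coeff_C] at this
    have hz : coeff 0 (u ^ 2) = 0 := by
      rw [sq, PowerSeries.coeff_mul]
      simp [hu0]
    rw [hz] at this
    simpa using this
  · have := congrArg (coeff 1) hg
    rw [map_add, coeff_D, hPs, map_add, map_add, map_add, h4, hus 0, h3, hN2,
      PowerSeries.coeff_C, PowerSeries.coeff_succ_X_mul, coeff_D] at this
    have hz : coeff 1 (u ^ 2) = 0 := by
      have : u ^ 2 = X * (X * ((2 * D M + M) * (2 * D M + M))) := by rw [hu2]; ring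
      rw [this, PowerSeries.coeff_succ_X_mul]
      simp
    have h0 : P 0 = (N : ℚ) ^ 2 := by
      have := congrArg (coeff 0) hg
      rw [map_add, coeff_D, hPs, map_add, map_add, map_add, h4, hu0, h3, hN2,
        PowerSeries.coeff_C] at this
      have hz : coeff 0 (u ^ 2) = 0 := by
        rw [sq, PowerSeries.coeff_mul]
        simp [hu0]
      rw [hz] at this
      simpa using this
    rw [hz, h0] at this
    norm_num at this
    linarith
  · intro n
    have := congrArg (coeff (n + 2)) hg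
    rw [map_add, coeff_D, hPs, map_add, map_add, map_add, h4, hus (n + 1), h3, hN2,
      PowerSeries.coeff_C, PowerSeries.coeff_succ_X_mul, coeff_D, hu2sq, map_add, h2, coeff_D,
      hus n] at this
    rw [if_neg (by omega)] at this
    push_cast at this
    linear_combination this

end IsStr

end Pool.Agent.H82.Quad
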